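import Pool.Agent.Helper35.EL.Stm

/-! # Part A: the cyclic triangles of the circular tournament (helper83) -/

set_option autoImplicit false

namespace Pool.Agent.Helper35.EL

open Finset

namespace PA

/-- the circular tournament -/
def arr (n x y : ℕ) : Prop := (x < y ∧ 2 * (y - x) < n) ∨ (y < x ∧ n ≤ 2 * (x - y))

instance (n x y : ℕ) : Decidable (arr n x y) := by unfold arr; infer_instance

/-- cyclic triangle -/
def cyc3 (n x y z : ℕ) : Prop := arr n x y ∧ arr n y z ∧ arr n z x

instance (n x y z : ℕ) : Decidable (cyc3 n x y z) := by unfold cyc3; infer_instance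

/-- the 3-graph -/
def HH (n : ℕ) : Finset (Finset (Fin n)) :=
  (univ.filter fun t : Fin n × Fin n × Fin n => cyc3 n t.1 t.2.1 t.2.2).image
    fun t => {t.1, t.2.1, t.2.2}

theorem mem_HH {n : ℕ} {e : Finset (Fin n)} :
    e ∈ HH n ↔ ∃ a b c : Fin n, cyc3 n a b c ∧ ({a, b, c} : Finset (Fin n)) = e := by
  unfold HH
  simp only [Finset.mem_image, Finset.mem_filter, Finset.mem_univ, true_and, Prod.exists]

theorem cyc3_ne {n x y z : ℕ} (h : cyc3 n x y z) : x ≠ y ∧ y ≠ z ∧ x ≠ z := by
  unfold cyc3 arr at h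
  omega

theorem card_of_cyc {n : ℕ} {a b c : Fin n} (h : cyc3 n a b c) :
    ({a, b, c} : Finset (Fin n)).card = 3 := by
  obtain ⟨h1, h2, h3⟩ := cyc3_ne h
  have h1' : a ≠ b := fun h => h1 (by rw [h])
  have h2' : b ≠ c := fun h => h2 (by rw [h])
  have h3' : a ≠ c := fun h => h3 (by rw [h])
  rw [Finset.card_insert_of_notMem (by simp [h1', h3']), Finset.card_pair h2']

theorem cyc3_rot {n x y z : ℕ} (h : cyc3 n x y z) : cyc3 n y z x := ⟨h.2.1, h.2.2, h.1⟩

/-- an edge is a cyclic triangle in one of the two orientations -/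
theorem cyc_of_mem {n : ℕ} {x y z : Fin n} (h : ({x, y, z} : Finset (Fin n)) ∈ HH n) :
    cyc3 n x y z ∨ cyc3 n x z y := by
  obtain ⟨a, b, c, h1, h2⟩ := mem_HH.1 h
  have hcard : ({x, y, z} : Finset (Fin n)).card = 3 := by rw [← h2]; exact card_of_cyc h1
  have hxy : x ≠ y := by
    rintro rfl
    rw [Finset.insert_eq_of_mem (by simp)] at hcard
    have := Finset.card_le_two (a := x) (b := z)
    omega
  have hxz : x ≠ z := by
    rintro rfl
    rw [Finset.insert_eq_of_mem (by simp)] at hcard
    have := Finset.card_le_two (a := y) (b := x)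
    omega
  have hyz : y ≠ z := by
    rintro rfl
    rw [Finset.pair_eq_singleton] at hcard
    have := Finset.card_le_two (a := x) (b := y)
    omega
  have hx : x = a ∨ x = b ∨ x = c := by
    have : x ∈ ({a, b, c} : Finset (Fin n)) := by rw [h2]; simp
    simpa using this
  have hy : y = a ∨ y = b ∨ y = c := by
    have : y ∈ ({a, b, c} : Finset (Fin n)) := by rw [h2]; simp
    simpa using this
  have hz : z = a ∨ z = b ∨ z = c := by
    have : z ∈ ({a, b, c} : Finset (Fin n)) := by rw [h2]; simp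
    simpa using this
  rcases hx with rfl | rfl | rfl <;> rcases hy with rfl | rfl | rfl <;>
    rcases hz with rfl | rfl | rfl <;>
    first
    | exact absurd rfl hxy
    | exact absurd rfl hxz
    | exact absurd rfl hyz
    | exact Or.inl h1
    | exact Or.inl (cyc3_rot h1)
    | exact Or.inl (cyc3_rot (cyc3_rot h1))
    | exact Or.inr h1
    | exact Or.inr (cyc3_rot h1)
    | exact Or.inr (cyc3_rot (cyc3_rot h1))

/-- the circular tournament is locally transitive -/
theorem locally_transitive {n a b c d e : ℕ} (ha : a < n) (hb : b < n) (hc : c < n) (hd : d < n)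
    (he : e < n) (h : cyc3 n a b c)
    (h1 : cyc3 n a d e ∨ cyc3 n a e d) (h2 : cyc3 n b d e ∨ cyc3 n b e d)
    (h3 : cyc3 n c d e ∨ cyc3 n c e d) : False := by
  unfold cyc3 arr at *
  omega

/-- no alternating colouring of an odd cycle -/
theorem no_alt {k : ℕ} (hk : Odd k) (f : Fin k → Bool) : ¬ ∀ i, f (finRotate k i) ≠ f i := by
  intro h
  have h1 : (univ.filter fun i => f i = true).card = (univ.filter fun i => f i = false).card := by
    refine Finset.card_nbij' (fun i => (finRotate k) i) (fun i => (finRotate k).symm i) ?_ ?_ ?_ ?_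
    · intro i hi
      simp only [Finset.coe_filter, Finset.mem_univ, true_and, Set.mem_ofPred_eq] at hi ⊢
      have := h i
      rw [hi] at this
      simpa using this
    · intro i hi
      simp only [Finset.coe_filter, Finset.mem_univ, true_and, Set.mem_ofPred_eq] at hi ⊢
      have := h ((finRotate k).symm i)
      rw [Equiv.apply_symm_apply, hi] at this
      cases hf : f ((finRotate k).symm i)
      · rw [hf] at this; exact absurd rfl this
      · rfl
    · intro i _; exact (finRotate k).symm_apply_apply i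
    · intro i _; exact (finRotate k).apply_symm_apply i
  have h2 := Finset.card_filter_add_card_filter_not (s := (univ : Finset (Fin k)))
    (p := fun i => f i = true)
  have h3 : (univ.filter fun i => ¬ f i = true) = (univ.filter fun i => f i = false) := by
    ext i; simp
  rw [h3, ← h1, Finset.card_univ, Fintype.card_fin] at h2
  obtain ⟨j, hj⟩ := hk
  omega

theorem good (n : ℕ) : Good n (HH n) := by
  refine ⟨?_, ?_, ?_⟩
  · intro e he
    obtain ⟨a, b, c, h1, rfl⟩ := mem_HH.1 he
    exact card_of_cyc h1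
  · rintro ⟨f, -, h0, h1, h2, h3⟩
    have g0 := cyc_of_mem h0
    have g1 := cyc_of_mem h1
    have g2 := cyc_of_mem h2
    have g3 := cyc_of_mem h3
    rcases g0 with g0 | g0
    · exact locally_transitive (f 0).2 (f 1).2 (f 2).2 (f 3).2 (f 4).2 g0 g1 g2 g3
    · exact locally_transitive (f 0).2 (f 2).2 (f 1).2 (f 3).2 (f 4).2 g0 g1 g3 g2
  · rintro v k - hk ⟨c, -, -, hc⟩
    refine no_alt hk (fun i => decide (arr n v (c i))) fun i => ?_
    have := cyc_of_mem (hc i)
    intro heq
    rw [decide_eq_decide] at heq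
    unfold cyc3 arr at this
    unfold arr at heq
    omega

/-- parametrisation of a part of the cyclic triangles -/
def tri (h : ℕ) (t : Σ _ : ℕ, ℕ × ℕ) : ℕ × ℕ × ℕ := (t.2.1, t.2.1 + (h - t.2.2), t.2.1 + 2 * h - t.1)

theorem card_sum (h : ℕ) :
    ((range h).sigma fun m => range (m + 1) ×ˢ range (m + 1)).card = ∑ m ∈ range h, (m + 1) ^ 2 := by
  rw [Finset.card_sigma]
  refine Finset.sum_congr rfl fun m _ => ?_
  rw [Finset.card_product, Finset.card_range, sq]

theorem sum_sq (h : ℕ) : 6 * ∑ m ∈ range h, (m + 1) ^ 2 = h * (h + 1) * (2 * h + 1) := by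
  induction h with
  | zero => simp
  | succ h ih => rw [Finset.sum_range_succ, mul_add, ih]; ring

theorem card_HH (n : ℕ) (hn : 1 ≤ n) :
    ∑ m ∈ range ((n - 1) / 2), (m + 1) ^ 2 ≤ (HH n).card := by
  obtain ⟨h, hh⟩ : ∃ h, h = (n - 1) / 2 := ⟨_, rfl⟩
  rw [← hh, ← card_sum]
  have : NeZero n := ⟨by omega⟩
  refine Finset.card_le_card_of_injOn (fun t => {Fin.ofNat n (tri h t).1, Fin.ofNat n (tri h t).2.1,
    Fin.ofNat n (tri h t).2.2}) ?_ ?_
  · rintro ⟨m, a, p⟩ ht
    simp only [Finset.coe_sigma, Finset.coe_range, Set.mem_sigma_iff, Set.mem_Iio,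
      Finset.coe_product, Set.mem_prod] at ht
    rw [Finset.mem_coe, mem_HH]
    refine ⟨_, _, _, ?_, rfl⟩
    simp only [tri, Fin.val_ofNat]
    rw [Nat.mod_eq_of_lt (by omega), Nat.mod_eq_of_lt (by omega), Nat.mod_eq_of_lt (by omega)]
    unfold cyc3 arr
    omega
  · rintro ⟨m, a, p⟩ ht ⟨m', a', p'⟩ ht' heq
    simp only [Finset.coe_sigma, Finset.coe_range, Set.mem_sigma_iff, Set.mem_Iio,
      Finset.coe_product, Set.mem_prod] at ht ht'
    simp only [tri] at heq
    have e1 : (a, a + (h - p), a + 2 * h - m) = (a', a' + (h - p'), a' + 2 * h - m') := by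
      have k1 : ∀ x, x < n → (x = a ∨ x = a + (h - p) ∨ x = a + 2 * h - m ↔
          x = a' ∨ x = a' + (h - p') ∨ x = a' + 2 * h - m') := by
        intro x hx
        have := Finset.ext_iff.1 heq ⟨x, hx⟩
        simp only [Finset.mem_insert, Finset.mem_singleton, Fin.ext_iff, Fin.val_ofNat] at this
        rw [Nat.mod_eq_of_lt (by omega), Nat.mod_eq_of_lt (by omega), Nat.mod_eq_of_lt (by omega),
          Nat.mod_eq_of_lt (by omega), Nat.mod_eq_of_lt (by omega),
          Nat.mod_eq_of_lt (by omega)] at this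
        exact this
      have a1 := (k1 a (by omega)).1 (Or.inl rfl)
      have a2 := (k1 (a + (h - p)) (by omega)).1 (Or.inr (Or.inl rfl))
      have a3 := (k1 (a + 2 * h - m) (by omega)).1 (Or.inr (Or.inr rfl))
      simp only [Prod.mk.injEq]
      omega
    simp only [Prod.mk.injEq] at e1
    obtain ⟨rfl, e2, e3⟩ := e1
    have : m = m' := by omega
    subst this
    have : p = p' := by omega
    subst this
    rfl

theorem choose3 (n : ℕ) : 6 * ((n + 2).choose 3) = (n + 2) * (n + 1) * n := by
  induction n with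
  | zero => simp
  | succ n ih =>
    have h1 : (n + 1 + 2).choose 3 = (n + 2).choose 2 + (n + 2).choose 3 := Nat.choose_succ_succ _ _
    have h2 : (n + 2).choose 2 * 2 = (n + 2) * (n + 1) := by
      rw [Nat.choose_two_right, Nat.div_mul_cancel]
      · simp
      · have := Nat.even_mul_pred_self (n + 2)
        exact this.two_dvd
    rw [h1, mul_add, ih]
    nlinarith

/-- The family has at least a quarter of all triples, for every `n`. -/
theorem quarter (n : ℕ) : n.choose 3 ≤ 4 * (HH n).card := by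
  rcases Nat.lt_or_ge n 2 with h | h
  · have : n.choose 3 = 0 := Nat.choose_eq_zero_of_lt (by omega)
    omega
  · obtain ⟨k, rfl⟩ : ∃ k, n = k + 2 := ⟨n - 2, by omega⟩
    have h1 := card_HH (k + 2) (by omega)
    have h2 := choose3 k
    have h3 := sum_sq ((k + 2 - 1) / 2)
    obtain ⟨j, hj | hj⟩ : ∃ j, k = 2 * j ∨ k = 2 * j + 1 := ⟨k / 2, by omega⟩
    · subst hj
      rw [show (2 * j + 2 - 1) / 2 = j by omega] at h1 h3
      have h4 : (2 * j + 2) * (2 * j + 1) * (2 * j) = 4 * (j * (j + 1) * (2 * j + 1)) := by ring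
      omega
    · subst hj
      rw [show (2 * j + 1 + 2 - 1) / 2 = j + 1 by omega] at h1 h3
      have h4 : (2 * j + 1 + 2) * (2 * j + 1 + 1) * (2 * j + 1) ≤
          4 * ((j + 1) * (j + 1 + 1) * (2 * (j + 1) + 1)) := by nlinarith
      omega

end PA

/-- **Part A.** -/
theorem t_A : PartA := by
  intro ε hε
  refine ⟨0, fun n _ => ⟨PA.HH n, PA.good n, ?_⟩⟩
  have h1 : ((n.choose 3 : ℕ) : ℝ) ≤ 4 * ((PA.HH n).card : ℝ) := by exact_mod_cast PA.quarter n
  have h2 : (0 : ℝ) ≤ ((n.choose 3 : ℕ) : ℝ) := Nat.cast_nonneg _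
  nlinarith

end Pool.Agent.Helper35.EL
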