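import Pool.Agent.Helper35.EL.Stm

/-! # Part B: reduction to bipartite links by the triangle removal lemma (helper65) -/

set_option autoImplicit false
open Finset

namespace Pool.Agent.Helper35.EL.B

open SimpleGraph

/-- a graph without triangles and without longer odd cycles is two-coloured -/
lemma twocol {V : Type} (G : SimpleGraph V)
    (h3 : ∀ a b c, G.Adj a b → G.Adj b c → ¬ G.Adj c a)
    (h5 : ∀ k : ℕ, 5 ≤ k → Odd k → ¬ ∃ c : Fin k → V, Function.Injective c ∧
      ∀ i, G.Adj (c i) (c (finRotate k i))) :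
    ∃ s : V → Bool, ∀ x y, G.Adj x y → s x ≠ s y := by
  classical
  have key : G.Colorable 2 := by
    rw [two_colorable_iff_forall_loop_even]
    intro u w
    by_contra hodd
    rw [Nat.not_even_iff_odd] at hodd
    have hex : ∃ k : ℕ, Odd k ∧ ∃ c : ℕ → V, (∀ i < k, G.Adj (c i) (c (i + 1))) ∧ c k = c 0 := by
      refine ⟨w.length, hodd, w.getVert, fun i hi => w.adj_getVert_succ hi, ?_⟩
      rw [Walk.getVert_length, Walk.getVert_zero]
    obtain ⟨k, hk⟩ : ∃ k, k = Nat.find hex := ⟨_, rfl⟩
    obtain ⟨hkodd, c, hc1, hc2⟩ := Nat.find_spec hex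
    rw [← hk] at hkodd hc1 hc2
    have hmin : ∀ m < k, ¬ (Odd m ∧ ∃ c : ℕ → V, (∀ i < m, G.Adj (c i) (c (i + 1))) ∧
        c m = c 0) := by
      intro m hm
      rw [hk] at hm
      exact Nat.find_min hex hm
    have hinj : ∀ i j, i < j → j < k → c i ≠ c j := by
      intro i j hij hjk heq
      rcases Nat.even_or_odd (j - i) with he | ho
      · apply hmin (k - (j - i)) (by omega)
        refine ⟨?_, fun m => if m ≤ i then c m else c (m + (j - i)), ?_, ?_⟩
        · rw [Nat.odd_iff] at hkodd ⊢
          rw [Nat.even_iff] at he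
          omega
        · intro m hm
          rcases lt_trichotomy m i with h | h | h
          · simp only [h.le, if_true, Nat.succ_le_of_lt h]
            exact hc1 m (by omega)
          · subst h
            simp only [le_refl, if_true, show ¬ (m + 1 ≤ m) by omega, if_false]
            rw [heq, show m + 1 + (j - m) = j + 1 by omega]
            exact hc1 j hjk
          · simp only [show ¬ (m ≤ i) by omega, show ¬ (m + 1 ≤ i) by omega, if_false]
            rw [show m + 1 + (j - i) = m + (j - i) + 1 by omega]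
            exact hc1 _ (by omega)
        · simp only [show ¬ (k - (j - i) ≤ i) by omega, if_false, Nat.zero_le, if_true]
          rw [show k - (j - i) + (j - i) = k by omega]
          exact hc2
      · apply hmin (j - i) (by omega)
        refine ⟨ho, fun m => c (i + m), ?_, ?_⟩
        · intro m hm
          exact hc1 (i + m) (by omega)
        · simp only [add_zero]
          rw [show i + (j - i) = j by omega]
          exact heq.symm
    have hk0 : 0 < k := hkodd.pos
    rcases Nat.lt_or_ge k 5 with hk5 | hk5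
    · have : k = 1 ∨ k = 3 := by
        rw [Nat.odd_iff] at hkodd
        omega
      rcases this with h | h
      · subst h
        have := hc1 0 (by omega)
        rw [zero_add, hc2] at this
        exact G.irrefl this
      · subst h
        have h0 := hc1 0 (by omega)
        have h1 := hc1 1 (by omega)
        have h2 := hc1 2 (by omega)
        norm_num at h0 h1 h2
        rw [hc2] at h2
        exact h3 _ _ _ h0 h1 h2
    · apply h5 k hk5 hkodd
      refine ⟨fun i => c i, ?_, ?_⟩
      · intro i j hij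
        by_contra hne
        have hne' : (i : ℕ) ≠ j := fun h => hne (Fin.ext h)
        rcases Nat.lt_or_gt_of_ne hne' with h | h
        · exact hinj i j h j.2 hij
        · exact hinj j i h i.2 hij.symm
      · intro i
        obtain ⟨k', rfl⟩ : ∃ k', k = k' + 1 := ⟨k - 1, by omega⟩
        rcases Nat.lt_or_ge (i : ℕ) k' with h | h
        · have : ((finRotate (k' + 1) i : Fin (k' + 1)) : ℕ) = i + 1 := by
            rw [coe_finRotate_of_ne_last]
            intro hh
            rw [hh] at h
            simp at h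
          show G.Adj (c i) (c ((finRotate (k' + 1) i : Fin (k' + 1)) : ℕ))
          rw [this]
          exact hc1 i (by omega)
        · have hi : i = Fin.last k' := Fin.ext (by have := i.2; simp only [Fin.val_last]; omega)
          rw [hi, finRotate_last]
          have := hc1 k' (by omega)
          rw [hc2] at this
          simpa using this
  obtain ⟨C⟩ := key
  refine ⟨fun x => decide (C x = 0), fun x y hxy => ?_⟩
  have h := C.valid hxy
  intro heq
  apply h
  have h0 : (C x = 0 ↔ C y = 0) := by simpa using heq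
  generalize C x = a at *
  generalize C y = b at *
  fin_cases a <;> fin_cases b <;> simp_all

/-- few triangles -/
lemma few {V : Type} [Fintype V] [DecidableEq V] (G : SimpleGraph V) [DecidableRel G.Adj]
    (h5 : ¬ ∃ c : Fin 5 → V, Function.Injective c ∧ ∀ i, G.Adj (c i) (c (finRotate 5 i))) :
    (G.cliqueFinset 3).card ≤ 4 * Fintype.card V ^ 2 := by
  let d : V → V → Finset V := fun x y => univ.filter fun w => G.Adj x w ∧ G.Adj y w
  let T : Finset (V × V × V) := univ.filter fun t =>
    G.Adj t.1 t.2.1 ∧ G.Adj t.1 t.2.2 ∧ G.Adj t.2.1 t.2.2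
  have claim : ∀ x y z, G.Adj x y → G.Adj x z → G.Adj y z → (d x y).card ≤ 2 ∨ (d x z).card ≤ 2 := by
    intro x y z hxy hxz hyz
    by_contra hcon
    push Not at hcon
    obtain ⟨h1, h2⟩ := hcon
    have e1 : ∃ y' ∈ d x y, y' ∉ ({z} : Finset V) := by
      apply Finset.exists_mem_notMem_of_card_lt_card
      rw [card_singleton]; omega
    obtain ⟨y', hy', hy'z⟩ := e1
    have e2 : ∃ z' ∈ d x z, z' ∉ ({y, y'} : Finset V) := by
      apply Finset.exists_mem_notMem_of_card_lt_card
      have := Finset.card_le_two (a := y) (b := y')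
      omega
    obtain ⟨z', hz', hz'n⟩ := e2
    simp only [d, mem_filter, mem_univ, true_and, mem_singleton, mem_insert, not_or] at hy' hy'z hz' hz'n
    apply h5
    refine ⟨![x, y', y, z, z'], ?_, ?_⟩
    · have a1 := hy'.1.ne
      have a2 := hy'.2.ne
      have a3 := hxy.ne
      have a4 := hxz.ne
      have a5 := hyz.ne
      have a6 := hz'.1.ne
      have a7 := hz'.2.ne
      have a8 := hz'n.1
      have a9 := hz'n.2
      intro i j hij
      fin_cases i <;> fin_cases j <;> simp_all
    · intro i
      fin_cases i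
      · exact hy'.1
      · exact hy'.2.symm
      · exact hyz
      · exact hz'.2
      · exact hz'.1.symm
  have hT : (G.cliqueFinset 3).card ≤ T.card := by
    have : G.cliqueFinset 3 ⊆ T.image fun t => {t.1, t.2.1, t.2.2} := by
      intro e he
      rw [mem_cliqueFinset_iff, is3Clique_iff] at he
      obtain ⟨a, b, c, hab, hac, hbc, rfl⟩ := he
      rw [mem_image]
      exact ⟨(a, b, c), by simp only [T, mem_filter, mem_univ, true_and]; exact ⟨hab, hac, hbc⟩, rfl⟩
    exact (card_le_card this).trans card_image_le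
  let T1 : Finset (V × V × V) := univ.filter fun t => (d t.1 t.2.1).card ≤ 2 ∧ t.2.2 ∈ d t.1 t.2.1
  have hT1 : T1.card ≤ 2 * Fintype.card V ^ 2 := by
    rw [Finset.card_eq_sum_card_fiberwise (s := T1) (t := (univ : Finset (V × V)))
      (f := fun t => (t.1, t.2.1)) (fun _ _ => mem_coe.2 (mem_univ _))]
    calc ∑ b : V × V, (T1.filter fun t => (t.1, t.2.1) = b).card ≤ ∑ _b : V × V, 2 := by
          apply sum_le_sum
          intro b _
          by_cases hb : (d b.1 b.2).card ≤ 2
          · refine le_trans ?_ hb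
            apply Finset.card_le_card_of_injOn (fun t => t.2.2)
            · intro t ht
              simp only [T1, coe_filter, mem_filter, mem_univ, true_and, Set.mem_ofPred_eq] at ht
              rw [← ht.2]
              exact ht.1.2
            · intro t ht t' ht' htt
              simp only [T1, coe_filter, mem_filter, mem_univ, true_and, Set.mem_ofPred_eq] at ht ht'
              have h1 := ht.2.trans ht'.2.symm
              rw [Prod.mk.injEq] at h1
              exact Prod.ext h1.1 (Prod.ext h1.2 htt)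
          · have : (T1.filter fun t => (t.1, t.2.1) = b) = ∅ := by
              apply Finset.filter_eq_empty_iff.2
              intro t ht h
              apply hb
              rw [← h]
              simp only [T1, mem_filter, mem_univ, true_and] at ht
              exact ht.1
            rw [this]; simp
      _ = 2 * Fintype.card V ^ 2 := by
          rw [sum_const, card_univ, Fintype.card_prod, smul_eq_mul]; ring
  have hTT : T ⊆ T1 ∪ T1.image fun t => (t.1, t.2.2, t.2.1) := by
    intro t ht
    simp only [T, mem_filter, mem_univ, true_and] at ht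
    rw [mem_union]
    rcases claim _ _ _ ht.1 ht.2.1 ht.2.2 with h | h
    · left
      simp only [T1, d, mem_filter, mem_univ, true_and]
      exact ⟨h, ht.2.1, ht.2.2⟩
    · right
      rw [mem_image]
      refine ⟨(t.1, t.2.2, t.2.1), ?_, rfl⟩
      simp only [T1, d, mem_filter, mem_univ, true_and]
      exact ⟨h, ht.1, ht.2.2.symm⟩
  calc (G.cliqueFinset 3).card ≤ T.card := hT
    _ ≤ (T1 ∪ T1.image fun t => (t.1, t.2.2, t.2.1)).card := card_le_card hTT
    _ ≤ T1.card + (T1.image fun t => (t.1, t.2.2, t.2.1)).card := card_union_le _ _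
    _ ≤ T1.card + T1.card := Nat.add_le_add_left card_image_le _
    _ ≤ 4 * Fintype.card V ^ 2 := by omega

/-- the link of `v` -/
def lk {n : ℕ} (H : Finset (Finset (Fin n))) (v : Fin n) : SimpleGraph (Fin n) where
  Adj x y := x ≠ y ∧ x ≠ v ∧ y ≠ v ∧ ({v, x, y} : Finset (Fin n)) ∈ H
  symm := ⟨fun x y h => ⟨h.1.symm, h.2.2.1, h.2.1, by rw [Finset.pair_comm]; exact h.2.2.2⟩⟩
  loopless := ⟨fun x h => h.1 rfl⟩

lemma lk_odd {n : ℕ} {H : Finset (Finset (Fin n))} (hH : Good n H) (v : Fin n) (k : ℕ) (hk : 5 ≤ k)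
    (ho : Odd k) : ¬ ∃ c : Fin k → Fin n, Function.Injective c ∧
      ∀ i, (lk H v).Adj (c i) (c (finRotate k i)) := by
  rintro ⟨c, hc, h⟩
  exact hH.2.2 v k hk ho ⟨c, hc, fun i => (h i).2.1, fun i => (h i).2.2.2⟩

open Classical in
/-- the number of the ordered pairs of adjacent vertices -/
lemma pairs {V : Type} [Fintype V] (G : SimpleGraph V) :
    (univ.filter fun x : V × V => G.Adj x.1 x.2).card = 2 * G.edgeFinset.card := by
  rw [← sum_degrees_eq_twice_card_edges, ← Finset.univ_product_univ, Finset.card_filter,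
    Finset.sum_product]
  apply sum_congr rfl
  intro x _
  rw [← card_neighborFinset_eq_degree, ← Finset.card_filter]
  congr 1
  ext y
  simp

open Classical in
lemma removed {V : Type} [Fintype V] {G L : SimpleGraph V} (h : G ≤ L) :
    ((univ.filter fun x : V × V => L.Adj x.1 x.2 ∧ ¬ G.Adj x.1 x.2).card : ℝ) =
      2 * ((L.edgeFinset.card : ℝ) - G.edgeFinset.card) := by
  have e1 : (univ.filter fun x : V × V => L.Adj x.1 x.2 ∧ ¬ G.Adj x.1 x.2) =
      (univ.filter fun x : V × V => L.Adj x.1 x.2) \ (univ.filter fun x : V × V => G.Adj x.1 x.2) := by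
    ext x; simp
  have e2 : (univ.filter fun x : V × V => G.Adj x.1 x.2) ⊆
      (univ.filter fun x : V × V => L.Adj x.1 x.2) := by
    intro x hx
    simp only [mem_filter, mem_univ, true_and] at hx ⊢
    exact h hx
  rw [e1, card_sdiff_of_subset e2, Nat.cast_sub (card_le_card e2), pairs, pairs]
  push_cast
  ring

open Classical in
/-- the six orders of a triple -/
lemma six {n : ℕ} {H : Finset (Finset (Fin n))} (hH : ∀ e ∈ H, e.card = 3) :
    6 * H.card ≤ (univ.filter fun t : Fin n × Fin n × Fin n =>
      t.1 ≠ t.2.1 ∧ t.1 ≠ t.2.2 ∧ t.2.1 ≠ t.2.2 ∧ ({t.1, t.2.1, t.2.2} : Finset (Fin n)) ∈ H).card := by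
  set T := univ.filter fun t : Fin n × Fin n × Fin n =>
      t.1 ≠ t.2.1 ∧ t.1 ≠ t.2.2 ∧ t.2.1 ≠ t.2.2 ∧ ({t.1, t.2.1, t.2.2} : Finset (Fin n)) ∈ H with hT
  have h1 : ∀ t ∈ T, ({t.1, t.2.1, t.2.2} : Finset (Fin n)) ∈ H := by
    intro t ht
    rw [hT, mem_filter] at ht
    exact ht.2.2.2.2
  rw [Finset.card_eq_sum_card_fiberwise (s := T) (t := H)
    (f := fun t => ({t.1, t.2.1, t.2.2} : Finset (Fin n))) (fun t ht => h1 t (mem_coe.1 ht)),
    mul_comm, ← smul_eq_mul]
  apply Finset.card_nsmul_le_sum
  intro e he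
  obtain ⟨a, b, c, hab, hac, hbc, rfl⟩ := Finset.card_eq_three.1 (hH e he)
  have h2 : ({(a, b, c), (a, c, b), (b, a, c), (b, c, a), (c, a, b), (c, b, a)} :
      Finset (Fin n × Fin n × Fin n)) ⊆
      T.filter fun t => ({t.1, t.2.1, t.2.2} : Finset (Fin n)) = {a, b, c} := by
    have p1 : ({a, c, b} : Finset (Fin n)) = {a, b, c} := by ext x; simp; tauto
    have p2 : ({b, a, c} : Finset (Fin n)) = {a, b, c} := by ext x; simp; tauto
    have p3 : ({b, c, a} : Finset (Fin n)) = {a, b, c} := by ext x; simp; tauto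
    have p4 : ({c, a, b} : Finset (Fin n)) = {a, b, c} := by ext x; simp; tauto
    have p5 : ({c, b, a} : Finset (Fin n)) = {a, b, c} := by ext x; simp; tauto
    intro t ht
    simp only [mem_insert, mem_singleton] at ht
    rw [mem_filter, hT, mem_filter]
    rcases ht with rfl | rfl | rfl | rfl | rfl | rfl
    · exact ⟨⟨mem_univ _, hab, hac, hbc, he⟩, rfl⟩
    · exact ⟨⟨mem_univ _, hac, hab, hbc.symm, by rw [p1]; exact he⟩, p1⟩
    · exact ⟨⟨mem_univ _, hab.symm, hbc, hac, by rw [p2]; exact he⟩, p2⟩
    · exact ⟨⟨mem_univ _, hbc, hab.symm, hac.symm, by rw [p3]; exact he⟩, p3⟩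
    · exact ⟨⟨mem_univ _, hac.symm, hbc.symm, hab, by rw [p4]; exact he⟩, p4⟩
    · exact ⟨⟨mem_univ _, hbc.symm, hac.symm, hab.symm, by rw [p5]; exact he⟩, p5⟩
  have h3 : ({(a, b, c), (a, c, b), (b, a, c), (b, c, a), (c, a, b), (c, b, a)} :
      Finset (Fin n × Fin n × Fin n)).card = 6 := by
    rw [card_insert_of_notMem, card_insert_of_notMem, card_insert_of_notMem, card_insert_of_notMem,
      card_insert_of_notMem, card_singleton]
    all_goals simp [hab, hac, hbc, hab.symm, hac.symm, hbc.symm]
  rw [← h3]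
  exact card_le_card h2

open Classical in
theorem main (hF : Flag) {ε : ℝ} {n : ℕ}
    (hn : 4 < triangleRemovalBound ε * n) {H : Finset (Finset (Fin n))} (hH : Good n H) :
    (H.card : ℝ) ≤ (1 / 24 + ε) * (n : ℝ) ^ 3 := by
  have hn0 : (0 : ℝ) < n := by
    rcases Nat.eq_zero_or_pos n with h | h
    · subst h; norm_num at hn
    · exact_mod_cast h
  have hrem : ∀ v : Fin n, ∃ G : SimpleGraph (Fin n), G ≤ lk H v ∧
      ((univ.filter fun x : Fin n × Fin n => (lk H v).Adj x.1 x.2 ∧ ¬ G.Adj x.1 x.2).card : ℝ) ≤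
        2 * ε * (n : ℝ) ^ 2 ∧ ∃ s : Fin n → Bool, ∀ x y, G.Adj x y → s x ≠ s y := by
    intro v
    have h1 := few (lk H v) (lk_odd hH v 5 le_rfl (by decide))
    rw [Fintype.card_fin] at h1
    have h2 : (((lk H v).cliqueFinset 3).card : ℝ) <
        triangleRemovalBound ε * (Fintype.card (Fin n) : ℝ) ^ 3 := by
      rw [Fintype.card_fin]
      calc (((lk H v).cliqueFinset 3).card : ℝ) ≤ 4 * (n : ℝ) ^ 2 := by exact_mod_cast h1
        _ < triangleRemovalBound ε * n * (n : ℝ) ^ 2 := by
            apply mul_lt_mul_of_pos_right hn (by positivity)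
        _ = _ := by ring
    obtain ⟨G, hG, hdec, hG2, hG3⟩ := triangle_removal h2
    refine ⟨G, hG, ?_, ?_⟩
    · have e4 : 2 * (((lk H v).edgeFinset.card : ℝ) - G.edgeFinset.card) ≤ 2 * ε * (n : ℝ) ^ 2 := by
        have := hG2
        rw [Fintype.card_fin] at this
        push_cast at this
        linarith
      rw [removed hG]
      convert e4
    · apply twocol
      · intro a b c hab hbc hca
        exact hG3 {a, b, c} (is3Clique_iff.2 ⟨a, b, c, hab, hca.symm, hbc, rfl⟩)
      · rintro k hk ho ⟨c, hc, h⟩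
        exact lk_odd hH v k hk ho ⟨c, hc, fun i => hG (h i)⟩
  choose G hG1 hG2 s hs using hrem
  let E : Fin n → Fin n → Fin n → Prop := fun a b c =>
    (G a).Adj b c ∧ (G b).Adj a c ∧ (G c).Adj a b
  have hE : Sys s E := by
    refine ⟨?_, ?_, ?_, ?_⟩
    · rintro a b c ⟨h1, h2, h3⟩
      exact ⟨h2, h1, h3.symm⟩
    · rintro a b c ⟨h1, h2, h3⟩
      exact ⟨h1.symm, h3, h2⟩
    · rintro a b c ⟨h1, h2, h3⟩
      exact hs a b c h1
    · rintro a b c d e ⟨h1, -, -⟩ ⟨h2, -, -⟩ ⟨h3, -, -⟩ ⟨h4, -, -⟩
      have g1 := hG1 _ h1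
      have g2 := hG1 _ h2
      have g3 := hG1 _ h3
      have g4 := hG1 _ h4
      apply hH.2.1
      have a1 := g1.1
      have a2 := g1.2.1
      have a3 := g1.2.2.1
      have a4 := g2.1
      have a5 := g2.2.1
      have a6 := g2.2.2.1
      have a7 := g3.2.1
      have a8 := g3.2.2.1
      have a9 := g4.2.1
      have a10 := g4.2.2.1
      refine ⟨![a, b, c, d, e], ?_, g1.2.2.2, g2.2.2.2, g3.2.2.2, g4.2.2.2⟩
      intro i j hij
      fin_cases i <;> fin_cases j <;> simp_all
  have hflag := hF (Fin n) s E hE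
  rw [Fintype.card_subtype, Fintype.card_fin] at hflag
  -- the removed triples
  let B : Finset (Fin n × Fin n × Fin n) := univ.filter fun t =>
    (lk H t.1).Adj t.2.1 t.2.2 ∧ ¬ (G t.1).Adj t.2.1 t.2.2
  have hB : (B.card : ℝ) ≤ n * (2 * ε * (n : ℝ) ^ 2) := by
    have h1 : B.card = ∑ v : Fin n, (B.filter fun t => t.1 = v).card :=
      Finset.card_eq_sum_card_fiberwise (fun _ _ => mem_coe.2 (mem_univ _))
    rw [h1]
    push_cast
    calc ∑ v : Fin n, ((B.filter fun t => t.1 = v).card : ℝ) ≤
          ∑ _v : Fin n, 2 * ε * (n : ℝ) ^ 2 := by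
          apply sum_le_sum
          intro v _
          refine le_trans ?_ (hG2 v)
          norm_cast
          apply Finset.card_le_card_of_injOn (fun t => t.2)
          · intro t ht
            simp only [B, coe_filter, mem_filter, mem_univ, true_and, Set.mem_ofPred_eq] at ht ⊢
            rw [← ht.2]
            exact ht.1
          · intro t ht t' ht' htt
            simp only [B, coe_filter, mem_filter, mem_univ, true_and, Set.mem_ofPred_eq] at ht ht'
            exact Prod.ext (ht.2.trans ht'.2.symm) htt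
      _ = n * (2 * ε * (n : ℝ) ^ 2) := by
          rw [sum_const, card_univ, Fintype.card_fin, nsmul_eq_mul]
  have hsix := six hH.1
  set T := univ.filter fun t : Fin n × Fin n × Fin n =>
      t.1 ≠ t.2.1 ∧ t.1 ≠ t.2.2 ∧ t.2.1 ≠ t.2.2 ∧ ({t.1, t.2.1, t.2.2} : Finset (Fin n)) ∈ H with hT
  set EE := univ.filter fun x : Fin n × Fin n × Fin n => E x.1 x.2.1 x.2.2 with hEE
  have hsub : T ⊆ EE ∪ (B ∪ (B.image (fun t => (t.2.1, t.1, t.2.2)) ∪
      B.image (fun t => (t.2.1, t.2.2, t.1)))) := by
    rintro ⟨a, b, c⟩ ht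
    rw [hT, mem_filter] at ht
    obtain ⟨-, hab, hac, hbc, habc⟩ := ht
    dsimp only at hab hac hbc habc
    have p2 : ({b, a, c} : Finset (Fin n)) = {a, b, c} := by ext x; simp; tauto
    have p4 : ({c, a, b} : Finset (Fin n)) = {a, b, c} := by ext x; simp; tauto
    have l1 : (lk H a).Adj b c := ⟨hbc, hab.symm, hac.symm, habc⟩
    have l2 : (lk H b).Adj a c := ⟨hac, hab, hbc.symm, by rw [p2]; exact habc⟩
    have l3 : (lk H c).Adj a b := ⟨hab, hac, hbc, by rw [p4]; exact habc⟩
    by_cases q1 : (G a).Adj b c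
    · by_cases q2 : (G b).Adj a c
      · by_cases q3 : (G c).Adj a b
        · apply mem_union_left
          rw [hEE, mem_filter]
          exact ⟨mem_univ _, q1, q2, q3⟩
        · apply mem_union_right
          apply mem_union_right
          apply mem_union_right
          rw [mem_image]
          refine ⟨(c, a, b), ?_, rfl⟩
          simp only [B, mem_filter, mem_univ, true_and]
          exact ⟨l3, q3⟩
      · apply mem_union_right
        apply mem_union_right
        apply mem_union_left
        rw [mem_image]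
        refine ⟨(b, a, c), ?_, rfl⟩
        simp only [B, mem_filter, mem_univ, true_and]
        exact ⟨l2, q2⟩
    · apply mem_union_right
      apply mem_union_left
      simp only [B, mem_filter, mem_univ, true_and]
      exact ⟨l1, q1⟩
  have hTc : T.card ≤ EE.card + 3 * B.card := by
    calc T.card ≤ _ := card_le_card hsub
      _ ≤ EE.card + (B ∪ (B.image (fun t => (t.2.1, t.1, t.2.2)) ∪
      B.image (fun t => (t.2.1, t.2.2, t.1)))).card := card_union_le _ _
      _ ≤ EE.card + (B.card + (B.image (fun t => (t.2.1, t.1, t.2.2)) ∪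
      B.image (fun t => (t.2.1, t.2.2, t.1))).card) := Nat.add_le_add_left (card_union_le _ _) _
      _ ≤ EE.card + (B.card + (B.card + B.card)) := by
          apply Nat.add_le_add_left
          apply Nat.add_le_add_left
          exact (card_union_le _ _).trans (Nat.add_le_add card_image_le card_image_le)
      _ = _ := by ring
  have h6 : 6 * (H.card : ℝ) ≤ EE.card + 3 * B.card := by exact_mod_cast hsix.trans hTc
  have h7 : 4 * (EE.card : ℝ) ≤ (n : ℝ) ^ 3 := by
    convert hflag using 3
  nlinarith

theorem t_B : PartB := by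
  intro hF ε hε
  have hb : 0 < triangleRemovalBound (ε / 12) := triangleRemovalBound_pos (by positivity)
  obtain ⟨N, hN⟩ := exists_nat_gt (max (4 / triangleRemovalBound (ε / 12)) (6 * (1 / 4 + ε) / ε))
  refine ⟨N + 3, fun n hn H hH => ?_⟩
  have hnN : (N : ℝ) + 3 ≤ n := by exact_mod_cast hn
  have h1 : 4 / triangleRemovalBound (ε / 12) < n := (le_max_left _ _).trans_lt (by linarith)
  have h2 : 6 * (1 / 4 + ε) / ε < n := (le_max_right _ _).trans_lt (by linarith)
  have hn0 : (0 : ℝ) < n := by
    have : (0 : ℝ) ≤ N := by positivity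
    linarith
  rw [div_lt_iff₀ hb] at h1
  rw [div_lt_iff₀ hε] at h2
  have h3 := main hF (ε := ε / 12) (by linarith) hH
  have hch : ((n.choose 3 : ℕ) : ℝ) = n * (n - 1) * (n - 2) / 6 := by
    obtain ⟨m, rfl⟩ : ∃ m, n = m + 3 := ⟨n - 3, by omega⟩
    have h := Nat.descFactorial_eq_factorial_mul_choose (m + 3) 3
    have h' : (m + 1) * ((m + 2) * (m + 3)) = 6 * (m + 3).choose 3 := by
      have e : (m + 3).descFactorial 3 = (m + 1) * ((m + 2) * (m + 3)) := by
        simp only [Nat.descFactorial_succ, Nat.descFactorial_zero, mul_one]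
        rw [show m + 3 - 2 = m + 1 by omega, show m + 3 - 1 = m + 2 by omega, Nat.sub_zero]
      rw [← e, h]
      rfl
    have h'' : ((m : ℝ) + 1) * ((m + 2) * (m + 3)) = 6 * ((m + 3).choose 3 : ℕ) := by
      exact_mod_cast h'
    push_cast
    linarith
  rw [hch]
  refine h3.trans ?_
  have h4 : (n : ℝ) * (n - 1) * (n - 2) = n ^ 3 - 3 * n ^ 2 + 2 * n := by ring
  rw [h4]
  have h5 : (0 : ℝ) < n ^ 2 := by positivity
  nlinarith [mul_pos hε hn0, mul_pos hε h5]

end Pool.Agent.Helper35.EL.B
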