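import Pool.Agent.Helper35.EL.Gram

/-! The tables define sums of squares. -/

set_option autoImplicit false
set_option maxRecDepth 100000
open Finset

namespace Pool.Agent.Helper35.EL

open Pool.Agent.H122R2.FdF

theorem nsum_eq (n : ℕ) (f : ℕ → ℕ) : nsum n f = ∑ k ∈ range n, f k := by
  induction n with
  | zero => rfl
  | succ n ih =>
    rw [sum_range_succ, ← ih]
    rfl

theorem gchk_all (k : ℕ) (hk : k < 5) : gchk k = true := by
  interval_cases k
  exacts [hg0, hg1, hg2, hg3, hg4]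

theorem pc_nat (k a b : ℕ) (hk : k < 5) (ha : a < 47) (hb : b < a + 1) :
    (∑ j ∈ range 51, wc k j * (lc k a j * lc k b j))
      + (67108864 * (∑ j ∈ range 51, wc k j) + 134217728)
      = pc k a b + 8192 * ((∑ j ∈ range 51, wc k j * lc k a j)
        + ∑ j ∈ range 51, wc k j * lc k b j) ∧ pc k a b = pc k b a := by
  have h := nall_true (nall_true (gchk_all k hk) a ha) b hb
  rw [show and = Bool.and from rfl, Bool.and_eq_true] at h
  refine ⟨?_, Nat.eq_of_beq_eq_true h.2⟩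
  have h1 : sp k a b + (67108864 * sw k + 134217728) = pc k a b + 8192 * (sl k a + sl k b) :=
    Nat.eq_of_beq_eq_true h.1
  simp only [sp, sw, sl, nsum_eq] at h1
  exact h1

theorem pc_int (k a b : ℕ) (hk : k < 5) (ha : a < 47) (hb : b < 47) :
    (pc k a b : ℤ) = (∑ j ∈ range 51, (wc k j : ℤ) *
      (((lc k a j : ℤ) - 8192) * ((lc k b j : ℤ) - 8192))) + 134217728 := by
  wlog h : b ≤ a generalizing a b with H
  · have h1 := H b a hb ha (by omega)
    have h2 := (pc_nat k b a hk hb (by omega)).2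
    rw [← h2, h1]
    congr 1
    exact sum_congr rfl fun j _ => by ring
  · have h1 := (pc_nat k a b hk ha (by omega)).1
    have h2 : (∑ j ∈ range 51, (wc k j : ℤ) * ((lc k a j : ℤ) * (lc k b j : ℤ)))
      + (67108864 * (∑ j ∈ range 51, (wc k j : ℤ)) + 134217728)
      = (pc k a b : ℤ) + 8192 * ((∑ j ∈ range 51, (wc k j : ℤ) * (lc k a j : ℤ))
        + ∑ j ∈ range 51, (wc k j : ℤ) * (lc k b j : ℤ)) := by exact_mod_cast h1
    have h3 : (∑ j ∈ range 51, (wc k j : ℤ) * (((lc k a j : ℤ) - 8192) * ((lc k b j : ℤ) - 8192)))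
        = (∑ j ∈ range 51, (wc k j : ℤ) * ((lc k a j : ℤ) * (lc k b j : ℤ)))
          + 67108864 * (∑ j ∈ range 51, (wc k j : ℤ))
          - 8192 * ((∑ j ∈ range 51, (wc k j : ℤ) * (lc k a j : ℤ))
        + ∑ j ∈ range 51, (wc k j : ℤ) * (lc k b j : ℤ)) := by
      rw [mul_sum, mul_add, mul_sum, mul_sum, ← sum_add_distrib, ← sum_add_distrib,
        ← sum_sub_distrib]
      exact sum_congr rfl fun j _ => by ring
    rw [h3]
    linarith

theorem qc_nat (k a b : ℕ) (hk : k < 5) (ha : a < 47) (hb : b < 47) :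
    qc k a b = ∑ g ∈ range 6, pc k (pm k g a) (pm k g b) := by
  have h := nall_true (nall_true (nall_true hqc k hk) a ha) b hb
  have h1 := Nat.eq_of_beq_eq_true h
  rw [nsum_eq] at h1
  exact h1

theorem pm_lt (k g a : ℕ) (hk : k < 5) (hg : g < 6) (ha : a < 47) : pm k g a < 47 :=
  Nat.lt_succ_of_le (Nat.le_of_ble_eq_true (nall_true (nall_true (nall_true hpc k hk) g hg) a ha))

theorem ty_lt (c : ℕ) (hc : c < 9) : ty c < 5 := by
  have h := nall_true hic c hc
  rw [show and = Bool.and from rfl, Bool.and_eq_true] at h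
  exact Nat.lt_succ_of_le (Nat.le_of_ble_eq_true h.1)

theorem ix_lt (c i : ℕ) (hc : c < 9) (hi : i < 256) : ix c i < 47 := by
  have h := nall_true hic c hc
  rw [show and = Bool.and from rfl, Bool.and_eq_true] at h
  exact Nat.lt_succ_of_le (Nat.le_of_ble_eq_true (nall_true h.2 i hi))

theorem sum_div_mod (f : ℕ → ℕ → ℝ) (n : ℕ) :
    ∑ k ∈ range (n * 51), f (k / 51) (k % 51) = ∑ g ∈ range n, ∑ j ∈ range 51, f g j := by
  induction n with
  | zero => simp
  | succ n ih =>
    rw [Nat.succ_mul, sum_range_add, ih, sum_range_succ (fun g => ∑ j ∈ range 51, f g j) n]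
    refine congrArg (fun z : ℝ => (∑ g ∈ range n, ∑ j ∈ range 51, f g j) + z)
      (sum_congr rfl fun j hj => ?_)
    have hj' := mem_range.mp hj
    have e1 : (n * 51 + j) / 51 = n := by omega
    have e2 : (n * 51 + j) % 51 = j := by omega
    rw [e1, e2]

/-- weights of the squares -/
noncomputable def wtR (c k : ℕ) : ℝ := (wc (ty c) (k % 51) : ℝ)
/-- the squares -/
noncomputable def uR (c i k : ℕ) : ℝ :=
  (lc (ty c) (pm (ty c) (k / 51) (ix c i)) (k % 51) : ℝ) - 8192

theorem q3_eq (c i j : ℕ) (hc : c < 9) (hi : i < 256) (hj : j < 256) :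
    (q3 c i j : ℝ) = (∑ k ∈ range (6 * 51), wtR c k * (uR c i k * uR c j k))
      + ((805306368 : ℕ) : ℝ) := by
  have hk := ty_lt c hc
  have ha := ix_lt c i hc hi
  have hb := ix_lt c j hc hj
  have e : ∑ k ∈ range (6 * 51), wtR c k * (uR c i k * uR c j k)
      = ∑ g ∈ range 6, ∑ t ∈ range 51, (wc (ty c) t : ℝ) *
        (((lc (ty c) (pm (ty c) g (ix c i)) t : ℝ) - 8192) *
          ((lc (ty c) (pm (ty c) g (ix c j)) t : ℝ) - 8192)) :=
    sum_div_mod (fun g t => (wc (ty c) t : ℝ) *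
        (((lc (ty c) (pm (ty c) g (ix c i)) t : ℝ) - 8192) *
          ((lc (ty c) (pm (ty c) g (ix c j)) t : ℝ) - 8192))) 6
  rw [e]
  have h1 : (q3 c i j : ℝ) = ∑ g ∈ range 6,
      (pc (ty c) (pm (ty c) g (ix c i)) (pm (ty c) g (ix c j)) : ℝ) := by
    rw [q3, qc_nat _ _ _ hk ha hb]
    push_cast
    rfl
  rw [h1]
  have h2 : ∀ g ∈ range 6, (pc (ty c) (pm (ty c) g (ix c i)) (pm (ty c) g (ix c j)) : ℝ)
      = (∑ t ∈ range 51, (wc (ty c) t : ℝ) *
        (((lc (ty c) (pm (ty c) g (ix c i)) t : ℝ) - 8192) *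
          ((lc (ty c) (pm (ty c) g (ix c j)) t : ℝ) - 8192))) + 134217728 := by
    intro g hg
    have := pc_int (ty c) (pm (ty c) g (ix c i)) (pm (ty c) g (ix c j)) hk
      (pm_lt _ _ _ hk (mem_range.mp hg) ha) (pm_lt _ _ _ hk (mem_range.mp hg) hb)
    exact_mod_cast this
  rw [sum_congr rfl h2, sum_add_distrib]
  congr 1
  norm_num

end Pool.Agent.Helper35.EL
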