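import Pool.Agent.Helper35.EL.Tab

/-! Enumeration of the decorated structures, part 1. -/

set_option autoImplicit false
set_option maxRecDepth 100000

namespace Pool.Agent.Helper35.EL

theorem ck100 : chk q3 KK CC 1 0 0 = true := by decide +kernel
theorem ck101 : chk q3 KK CC 1 0 1 = true := by decide +kernel

end Pool.Agent.Helper35.EL
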