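import Pool.Agent.Helper35.EL.Stm

/-! # Codes of the decorated five-vertex structures

For a vertex `i` the signs `s i j` of the other vertices matter only up to a common change; `X` is
the exclusive or. `cT` is the code of a labelled triple, `cI` the code of the attachment of a fourth
vertex to it, `leafG` the total over the ten triples of five vertices. -/

set_option autoImplicit false
set_option maxRecDepth 100000

namespace Pool.Agent.Helper35.EL

/-- exclusive or of bits -/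
def X (a b : ℕ) : ℕ := Nat.xor a b

def cT (x y z e : ℕ) : ℕ :=
  Nat.add x (Nat.add (Nat.mul (nat_lit 2) y) (Nat.add (Nat.mul (nat_lit 4) z) e))

def cI (u v w p q r s t : ℕ) : ℕ :=
  Nat.add u (Nat.add (Nat.mul (nat_lit 2) v) (Nat.add (Nat.mul (nat_lit 4) w)
    (Nat.add (Nat.mul (nat_lit 8) p) (Nat.add (Nat.mul (nat_lit 16) q)
    (Nat.add (Nat.mul (nat_lit 32) r) (Nat.add (Nat.mul (nat_lit 64) s)
    (Nat.mul (nat_lit 128) t)))))))

/-- run over the two values of a bit -/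
def B2 (f : ℕ → Bool) : Bool := and (f (nat_lit 0)) (f (nat_lit 1))

/-- run over the marks `0` and, if allowed, `1` -/
def M2 (p : ℕ) (f : ℕ → Bool) : Bool :=
  and (f (nat_lit 0)) (or (Nat.beq p (nat_lit 0)) (f (nat_lit 1)))

/-- number of edges plus the total over the ten triples -/
def leafG (q : ℕ → ℕ → ℕ → ℕ) (K : ℕ)
    (s01 s02 s03 s04 s10 s12 s13 s14 s20 s21 s23 s24 s30 s31 s32 s34 s40 s41 s42 s43 : ℕ)
    (m012 m013 m014 m023 m024 m034 m123 m124 m134 m234 : ℕ) : ℕ :=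
  Nat.add (Nat.mul K (Nat.add m012 (Nat.add m013 (Nat.add m014 (Nat.add m023 (Nat.add m024 (Nat.add m034 (Nat.add m123 (Nat.add m124 (Nat.add m134 m234))))))))))
      (Nat.add (q (cT (X s01 s02) (X s10 s12) (X s20 s21) m012)
        (cI (X s01 s03) (X s10 s13) (X s20 s23) (X s30 s31) (X s30 s32) m013 m023 m123)
        (cI (X s01 s04) (X s10 s14) (X s20 s24) (X s40 s41) (X s40 s42) m014 m024 m124))
      (Nat.add (q (cT (X s01 s03) (X s10 s13) (X s30 s31) m013)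
        (cI (X s01 s02) (X s10 s12) (X s30 s32) (X s20 s21) (X s20 s23) m012 m023 m123)
        (cI (X s01 s04) (X s10 s14) (X s30 s34) (X s40 s41) (X s40 s43) m014 m034 m134))
      (Nat.add (q (cT (X s01 s04) (X s10 s14) (X s40 s41) m014)
        (cI (X s01 s02) (X s10 s12) (X s40 s42) (X s20 s21) (X s20 s24) m012 m024 m124)
        (cI (X s01 s03) (X s10 s13) (X s40 s43) (X s30 s31) (X s30 s34) m013 m034 m134))
      (Nat.add (q (cT (X s02 s03) (X s20 s23) (X s30 s32) m023)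
        (cI (X s02 s01) (X s20 s21) (X s30 s31) (X s10 s12) (X s10 s13) m012 m013 m123)
        (cI (X s02 s04) (X s20 s24) (X s30 s34) (X s40 s42) (X s40 s43) m024 m034 m234))
      (Nat.add (q (cT (X s02 s04) (X s20 s24) (X s40 s42) m024)
        (cI (X s02 s01) (X s20 s21) (X s40 s41) (X s10 s12) (X s10 s14) m012 m014 m124)
        (cI (X s02 s03) (X s20 s23) (X s40 s43) (X s30 s32) (X s30 s34) m023 m034 m234))
      (Nat.add (q (cT (X s03 s04) (X s30 s34) (X s40 s43) m034)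
        (cI (X s03 s01) (X s30 s31) (X s40 s41) (X s10 s13) (X s10 s14) m013 m014 m134)
        (cI (X s03 s02) (X s30 s32) (X s40 s42) (X s20 s23) (X s20 s24) m023 m024 m234))
      (Nat.add (q (cT (X s12 s13) (X s21 s23) (X s31 s32) m123)
        (cI (X s12 s10) (X s21 s20) (X s31 s30) (X s01 s02) (X s01 s03) m012 m013 m023)
        (cI (X s12 s14) (X s21 s24) (X s31 s34) (X s41 s42) (X s41 s43) m124 m134 m234))
      (Nat.add (q (cT (X s12 s14) (X s21 s24) (X s41 s42) m124)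
        (cI (X s12 s10) (X s21 s20) (X s41 s40) (X s01 s02) (X s01 s04) m012 m014 m024)
        (cI (X s12 s13) (X s21 s23) (X s41 s43) (X s31 s32) (X s31 s34) m123 m134 m234))
      (Nat.add (q (cT (X s13 s14) (X s31 s34) (X s41 s43) m134)
        (cI (X s13 s10) (X s31 s30) (X s41 s40) (X s01 s03) (X s01 s04) m013 m014 m034)
        (cI (X s13 s12) (X s31 s32) (X s41 s42) (X s21 s23) (X s21 s24) m123 m124 m234))
      (q (cT (X s23 s24) (X s32 s34) (X s42 s43) m234)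
        (cI (X s23 s20) (X s32 s30) (X s42 s40) (X s02 s03) (X s02 s04) m023 m024 m034)
        (cI (X s23 s21) (X s32 s31) (X s42 s41) (X s12 s13) (X s12 s14) m123 m124 m134)))))))))))

/-- number of copies of `F_{3,2}` -/
def badG (m012 m013 m014 m023 m024 m034 m123 m124 m134 m234 : ℕ) : ℕ :=
  (Nat.add (Nat.mul m012 (Nat.mul m013 (Nat.mul m014 m234))) (Nat.add (Nat.mul m012 (Nat.mul m023 (Nat.mul m024 m134))) (Nat.add (Nat.mul m013 (Nat.mul m023 (Nat.mul m034 m124))) (Nat.add (Nat.mul m014 (Nat.mul m024 (Nat.mul m034 m123))) (Nat.add (Nat.mul m012 (Nat.mul m123 (Nat.mul m124 m034))) (Nat.add (Nat.mul m013 (Nat.mul m123 (Nat.mul m134 m024))) (Nat.add (Nat.mul m014 (Nat.mul m124 (Nat.mul m134 m023))) (Nat.add (Nat.mul m023 (Nat.mul m123 (Nat.mul m234 m014))) (Nat.add (Nat.mul m024 (Nat.mul m124 (Nat.mul m234 m013))) (Nat.mul m034 (Nat.mul m134 (Nat.mul m234 m012))))))))))))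

def lchk (q : ℕ → ℕ → ℕ → ℕ) (K C : ℕ)
    (s01 s02 s03 s04 s10 s12 s13 s14 s20 s21 s23 s24 s30 s31 s32 s34 s40 s41 s42 s43 : ℕ)
    (m012 m013 m014 m023 m024 m034 m123 m124 m134 m234 : ℕ) : Bool :=
  or (Nat.ble (nat_lit 1) (badG m012 m013 m014 m023 m024 m034 m123 m124 m134 m234))
    (Nat.ble (leafG q K s01 s02 s03 s04 s10 s12 s13 s14 s20 s21 s23 s24 s30 s31 s32 s34 s40 s41 s42 s43
      m012 m013 m014 m023 m024 m034 m123 m124 m134 m234) C)

def mchk (q : ℕ → ℕ → ℕ → ℕ) (K C : ℕ)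
    (s01 s02 s03 s04 s10 s12 s13 s14 s20 s21 s23 s24 s30 s31 s32 s34 s40 s41 s42 s43 : ℕ) : Bool :=
  M2 (Nat.mul (X s01 s02) (Nat.mul (X s10 s12) (X s20 s21))) fun m012 =>
  M2 (Nat.mul (X s01 s03) (Nat.mul (X s10 s13) (X s30 s31))) fun m013 =>
  M2 (Nat.mul (X s01 s04) (Nat.mul (X s10 s14) (X s40 s41))) fun m014 =>
  M2 (Nat.mul (X s02 s03) (Nat.mul (X s20 s23) (X s30 s32))) fun m023 =>
  M2 (Nat.mul (X s02 s04) (Nat.mul (X s20 s24) (X s40 s42))) fun m024 =>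
  M2 (Nat.mul (X s03 s04) (Nat.mul (X s30 s34) (X s40 s43))) fun m034 =>
  M2 (Nat.mul (X s12 s13) (Nat.mul (X s21 s23) (X s31 s32))) fun m123 =>
  M2 (Nat.mul (X s12 s14) (Nat.mul (X s21 s24) (X s41 s42))) fun m124 =>
  M2 (Nat.mul (X s13 s14) (Nat.mul (X s31 s34) (X s41 s43))) fun m134 =>
  M2 (Nat.mul (X s23 s24) (Nat.mul (X s32 s34) (X s42 s43))) fun m234 =>
  lchk q K C s01 s02 s03 s04 s10 s12 s13 s14 s20 s21 s23 s24 s30 s31 s32 s34 s40 s41 s42 s43
    m012 m013 m014 m023 m024 m034 m123 m124 m134 m234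

/-- enumeration of the structures with prescribed signs at the vertex `0` -/
def chk (q : ℕ → ℕ → ℕ → ℕ) (K C : ℕ) (s02 s03 s04 : ℕ) : Bool :=
  B2 fun s12 =>
  B2 fun s13 =>
  B2 fun s14 =>
  B2 fun s21 =>
  B2 fun s23 =>
  B2 fun s24 =>
  B2 fun s31 =>
  B2 fun s32 =>
  B2 fun s34 =>
  B2 fun s41 =>
  B2 fun s42 =>
  B2 fun s43 =>
  mchk q K C (nat_lit 0) s02 s03 s04 (nat_lit 0) s12 s13 s14 (nat_lit 0) s21 s23 s24 (nat_lit 0) s31 s32 s34 (nat_lit 0) s41 s42 s43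

section
variable {V : Type} (s : V → V → Bool) (mk : V → V → V → ℕ)

/-- `1` if `v` separates `a` and `b` -/
def DD (v a b : V) : ℕ := (xor (s v a) (s v b)).toNat

def CT (a b c : V) : ℕ := cT (DD s a b c) (DD s b a c) (DD s c a b) (mk a b c)

def CI (a b c d : V) : ℕ :=
  cI (DD s a b d) (DD s b a d) (DD s c a d) (DD s d a b) (DD s d a c)
    (mk a b d) (mk a c d) (mk b c d)

def F3 (q : ℕ → ℕ → ℕ → ℕ) (a b c d e : V) : ℕ :=
  q (CT s mk a b c) (CI s mk a b c d) (CI s mk a b c e)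

/-- the total over the ten triples of five vertices -/
def Leaf (q : ℕ → ℕ → ℕ → ℕ) (K : ℕ) (x : Fin 5 → V) : ℕ :=
  K * (mk (x 0) (x 1) (x 2) + (mk (x 0) (x 1) (x 3) + (mk (x 0) (x 1) (x 4) + (mk (x 0) (x 2) (x 3) + (mk (x 0) (x 2) (x 4) + (mk (x 0) (x 3) (x 4) + (mk (x 1) (x 2) (x 3) + (mk (x 1) (x 2) (x 4) + (mk (x 1) (x 3) (x 4) + (mk (x 2) (x 3) (x 4))))))))))) +
  (F3 s mk q (x 0) (x 1) (x 2) (x 3) (x 4) +
    (F3 s mk q (x 0) (x 1) (x 3) (x 2) (x 4) +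
    (F3 s mk q (x 0) (x 1) (x 4) (x 2) (x 3) +
    (F3 s mk q (x 0) (x 2) (x 3) (x 1) (x 4) +
    (F3 s mk q (x 0) (x 2) (x 4) (x 1) (x 3) +
    (F3 s mk q (x 0) (x 3) (x 4) (x 1) (x 2) +
    (F3 s mk q (x 1) (x 2) (x 3) (x 0) (x 4) +
    (F3 s mk q (x 1) (x 2) (x 4) (x 0) (x 3) +
    (F3 s mk q (x 1) (x 3) (x 4) (x 0) (x 2) +
    (F3 s mk q (x 2) (x 3) (x 4) (x 0) (x 1)))))))))))

end

open Classical in
/-- indicator of the edges -/
noncomputable def mkE {V : Type} (E : V → V → V → Prop) (a b c : V) : ℕ := if E a b c then 1 else 0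

/-- PART L: the enumeration bounds the total of all five-tuples -/
def LeafAll : Prop := ∀ (q : ℕ → ℕ → ℕ → ℕ) (K C : ℕ),
  (∀ a b c, a < 2 → b < 2 → c < 2 → chk q K C a b c = true) →
  ∀ (V : Type) (s : V → V → Bool) (E : V → V → V → Prop), Sys s E →
  ∀ x : Fin 5 → V, Leaf s (mkE E) q K x ≤ C

/-- PART V: averaging over all five-tuples, `q` being a sum of squares plus a constant -/
def Avg : Prop := ∀ (q : ℕ → ℕ → ℕ → ℕ) (K C O J : ℕ) (wt : ℕ → ℕ → ℝ) (u : ℕ → ℕ → ℕ → ℝ),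
  (∀ c k, 0 ≤ wt c k) →
  (∀ c i j, c < 9 → i < 256 → j < 256 →
    (q c i j : ℝ) = (∑ k ∈ Finset.range J, wt c k * (u c i k * u c j k)) + O) →
  ∀ (V : Type) [Fintype V] (s : V → V → Bool) (E : V → V → V → Prop), Sys s E →
  (∀ x : Fin 5 → V, Leaf s (mkE E) q K x ≤ C) →
  10 * (K : ℝ) * (∑ a, ∑ b, ∑ c, (mkE E a b c : ℝ)) * (Fintype.card V : ℝ) ^ 2
    + 10 * (O : ℝ) * (Fintype.card V : ℝ) ^ 5 ≤ (C : ℝ) * (Fintype.card V : ℝ) ^ 5

end Pool.Agent.Helper35.EL
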