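import Pool.Agent.Helper35.EL.Cert
import Pool.Agent.Helper35.EL.Chk0
import Pool.Agent.Helper35.EL.Chk1
import Pool.Agent.Helper35.EL.Chk2
import Pool.Agent.Helper35.EL.Chk3

/-! The flag inequality: at most `n^3/4` ordered edges. -/

set_option autoImplicit false
set_option maxRecDepth 100000
open Finset

namespace Pool.Agent.Helper35.EL

theorem chk_all (a b c : ℕ) (ha : a < 2) (hb : b < 2) (hc : c < 2) :
    chk q3 KK CC a b c = true := by
  have ha' : a = 0 ∨ a = 1 := by omega
  have hb' : b = 0 ∨ b = 1 := by omega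
  have hc' : c = 0 ∨ c = 1 := by omega
  rcases ha' with rfl | rfl <;> rcases hb' with rfl | rfl <;> rcases hc' with rfl | rfl
  exacts [ck000, ck001, ck010, ck011, ck100, ck101, ck110, ck111]

theorem flag_of (hL : LeafAll) (hV : Avg) : Flag := by
  intro V _ s E _ hs
  have hleaf := fun x => hL q3 KK CC chk_all V s E hs x
  have h := hV q3 KK CC 805306368 (6 * 51) wtR uR (fun c k => Nat.cast_nonneg _) q3_eq V s E hs hleaf
  have hT : (∑ a, ∑ b, ∑ c, (mkE E a b c : ℝ))
      = (Fintype.card {x : V × V × V // E x.1 x.2.1 x.2.2} : ℝ) := by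
    rw [Fintype.card_subtype, Finset.card_filter]
    push_cast
    rw [Fintype.sum_prod_type]
    refine sum_congr rfl fun a _ => ?_
    rw [Fintype.sum_prod_type]
    refine sum_congr rfl fun b _ => sum_congr rfl fun c _ => ?_
    unfold mkE
    by_cases hE : E a b c
    · simp [hE]
    · simp [hE]
  rw [hT] at h
  have hK : (KK : ℝ) = 201326592 := by norm_num [KK]
  have hC : (CC : ℝ) = 8556380160 := by norm_num [CC]
  rw [hK, hC] at h
  set n : ℝ := (Fintype.card V : ℝ) with hn
  set T : ℝ := (Fintype.card {x : V × V × V // E x.1 x.2.1 x.2.2} : ℝ) with hTd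
  push_cast at h
  rcases eq_or_lt_of_le (show (0 : ℝ) ≤ n from Nat.cast_nonneg _) with h0 | h0
  · have hV0 : Fintype.card V = 0 := by
      have : (Fintype.card V : ℝ) = 0 := by rw [← hn]; exact h0.symm
      exact_mod_cast this
    have hT0 : T = 0 := by
      rw [hTd]
      have : IsEmpty V := Fintype.card_eq_zero_iff.mp hV0
      have : IsEmpty {x : V × V × V // E x.1 x.2.1 x.2.2} := ⟨fun x => this.false x.1.1⟩
      rw [Fintype.card_eq_zero]
      norm_num
    rw [hT0, ← h0]
    norm_num
  · have h2 : 0 < n ^ 2 := by positivity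
    have h3 : (4 * T) * n ^ 2 ≤ n ^ 3 * n ^ 2 := by nlinarith [h]
    exact le_of_mul_le_mul_right h3 h2

end Pool.Agent.Helper35.EL
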