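import Pool.Agent.Helper35.EL.Tab
import Pool.Agent.H122R2.FdF.FlagAux

/-! Gram identities of the certificate. -/

set_option autoImplicit false
set_option maxRecDepth 100000

namespace Pool.Agent.Helper35.EL

open Pool.Agent.H122R2.FdF

def sp (k a b : ℕ) : ℕ := nsum 51 fun j => Nat.mul (wc k j) (Nat.mul (lc k a j) (lc k b j))
def sl (k a : ℕ) : ℕ := nsum 51 fun j => Nat.mul (wc k j) (lc k a j)
def sw (k : ℕ) : ℕ := nsum 51 fun j => wc k j

def gg (k a b : ℕ) : Bool :=
  Nat.beq (Nat.add (sp k a b) (Nat.add (Nat.mul 67108864 (sw k)) 134217728))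
    (Nat.add (pc k a b) (Nat.mul 8192 (Nat.add (sl k a) (sl k b))))
def gchk (k : ℕ) : Bool := nall 47 fun a => nall (Nat.succ a) fun b =>
  and (gg k a b) (Nat.beq (pc k a b) (pc k b a))
def qchk : Bool := nall 5 fun k => nall 47 fun a => nall 47 fun b =>
  Nat.beq (qc k a b) (nsum 6 fun g => pc k (pm k g a) (pm k g b))
def pchk : Bool := nall 5 fun k => nall 6 fun g => nall 47 fun a => Nat.ble (pm k g a) 46
def ichk : Bool := nall 9 fun c => and (Nat.ble (ty c) 4) (nall 256 fun i => Nat.ble (ix c i) 46)

theorem hg0 : gchk 0 = true := by decide +kernel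
theorem hg1 : gchk 1 = true := by decide +kernel
theorem hg2 : gchk 2 = true := by decide +kernel
theorem hg3 : gchk 3 = true := by decide +kernel
theorem hg4 : gchk 4 = true := by decide +kernel
theorem hqc : qchk = true := by decide +kernel
theorem hpc : pchk = true := by decide +kernel
theorem hic : ichk = true := by decide +kernel

end Pool.Agent.Helper35.EL
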