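import Pool.Agent.Helper35.EL.Cod

/-! # Transfer: the enumeration bounds the total of all five-tuples -/

set_option autoImplicit false
set_option maxRecDepth 100000

namespace Pool.Agent.Helper35.EL

/-- admissible values of a mark -/
def Mv (p m : ℕ) : Prop := m = 0 ∨ (m = 1 ∧ p = 1)

theorem M2_true {p m : ℕ} {f : ℕ → Bool} (h : M2 p f = true) (hm : Mv p m) : f m = true := by
  have h' : (f 0 && (Nat.beq p 0 || f 1)) = true := h
  rw [Bool.and_eq_true, Bool.or_eq_true] at h'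
  rcases hm with rfl | ⟨rfl, rfl⟩
  · exact h'.1
  · rcases h'.2 with h | h
    · exact absurd (Nat.eq_of_beq_eq_true h) (by norm_num)
    · exact h

theorem B2_true {f : ℕ → Bool} (h : B2 f = true) {b : ℕ} (hb : b < 2) : f b = true := by
  have h' : (f 0 && f 1) = true := h
  rw [Bool.and_eq_true] at h'
  have : b = 0 ∨ b = 1 := by omega
  rcases this with rfl | rfl
  exacts [h'.1, h'.2]

theorem leaf_le (q : ℕ → ℕ → ℕ → ℕ) (K C : ℕ)
    (hchk : ∀ a b c, a < 2 → b < 2 → c < 2 → chk q K C a b c = true)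
    (s01 s02 s03 s04 s10 s12 s13 s14 s20 s21 s23 s24 s30 s31 s32 s34 s40 s41 s42 s43 : ℕ) (m012 m013 m014 m023 m024 m034 m123 m124 m134 m234 : ℕ)
    (z01 : s01 = 0) (z10 : s10 = 0) (z20 : s20 = 0) (z30 : s30 = 0) (z40 : s40 = 0)
    (h02 : s02 < 2) (h03 : s03 < 2) (h04 : s04 < 2) (h12 : s12 < 2) (h13 : s13 < 2) (h14 : s14 < 2) (h21 : s21 < 2) (h23 : s23 < 2) (h24 : s24 < 2) (h31 : s31 < 2) (h32 : s32 < 2) (h34 : s34 < 2) (h41 : s41 < 2) (h42 : s42 < 2) (h43 : s43 < 2)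
    (k012 : Mv (Nat.mul (X s01 s02) (Nat.mul (X s10 s12) (X s20 s21))) m012) (k013 : Mv (Nat.mul (X s01 s03) (Nat.mul (X s10 s13) (X s30 s31))) m013) (k014 : Mv (Nat.mul (X s01 s04) (Nat.mul (X s10 s14) (X s40 s41))) m014) (k023 : Mv (Nat.mul (X s02 s03) (Nat.mul (X s20 s23) (X s30 s32))) m023) (k024 : Mv (Nat.mul (X s02 s04) (Nat.mul (X s20 s24) (X s40 s42))) m024) (k034 : Mv (Nat.mul (X s03 s04) (Nat.mul (X s30 s34) (X s40 s43))) m034) (k123 : Mv (Nat.mul (X s12 s13) (Nat.mul (X s21 s23) (X s31 s32))) m123) (k124 : Mv (Nat.mul (X s12 s14) (Nat.mul (X s21 s24) (X s41 s42))) m124) (k134 : Mv (Nat.mul (X s13 s14) (Nat.mul (X s31 s34) (X s41 s43))) m134) (k234 : Mv (Nat.mul (X s23 s24) (Nat.mul (X s32 s34) (X s42 s43))) m234)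
    (hz : badG m012 m013 m014 m023 m024 m034 m123 m124 m134 m234 = 0) :
    leafG q K s01 s02 s03 s04 s10 s12 s13 s14 s20 s21 s23 s24 s30 s31 s32 s34 s40 s41 s42 s43
      m012 m013 m014 m023 m024 m034 m123 m124 m134 m234 ≤ C := by
  subst z01 z10 z20 z30 z40
  have hc := hchk s02 s03 s04 h02 h03 h04
  have hm : mchk q K C 0 s02 s03 s04 0 s12 s13 s14 0 s21 s23 s24 0 s31 s32 s34 0 s41 s42 s43 = true :=
    (B2_true (B2_true (B2_true (B2_true (B2_true (B2_true (B2_true (B2_true (B2_true (B2_true (B2_true (B2_true hc h12) h13) h14) h21) h23) h24) h31) h32) h34) h41) h42) h43)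
  have h : lchk q K C 0 s02 s03 s04 0 s12 s13 s14 0 s21 s23 s24 0 s31 s32 s34 0 s41 s42 s43
      m012 m013 m014 m023 m024 m034 m123 m124 m134 m234 = true :=
    (M2_true (M2_true (M2_true (M2_true (M2_true (M2_true (M2_true (M2_true (M2_true (M2_true hm k012) k013) k014) k023) k024) k034) k123) k124) k134) k234)
  rcases (Bool.or_eq_true _ _).mp h with h | h
  · have h2 : 1 ≤ badG m012 m013 m014 m023 m024 m034 m123 m124 m134 m234 := Nat.le_of_ble_eq_true h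
    rw [hz] at h2
    omega
  · exact Nat.le_of_ble_eq_true h

section
variable {V : Type}

/-- reference vertex -/
def rf (i : Fin 5) : Fin 5 := if i = 0 then 1 else 0

/-- normalised signs -/
def N (s : V → V → Bool) (x : Fin 5 → V) (i j : Fin 5) : ℕ :=
  (xor (s (x i) (x j)) (s (x i) (x (rf i)))).toNat

theorem dd_fin (s : V → V → Bool) (x : Fin 5 → V) (i j k : Fin 5) :
    DD s (x i) (x j) (x k) = X (N s x i j) (N s x i k) := by
  unfold DD N X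
  cases s (x i) (x j) <;> cases s (x i) (x k) <;> cases s (x i) (x (rf i)) <;> rfl

theorem N_lt (s : V → V → Bool) (x : Fin 5 → V) (i j : Fin 5) : N s x i j < 2 := by
  unfold N
  cases (xor (s (x i) (x j)) (s (x i) (x (rf i)))) <;> decide

theorem N_ref (s : V → V → Bool) (x : Fin 5 → V) (i j : Fin 5) (h : rf i = j) :
    N s x i j = 0 := by
  unfold N
  rw [h]
  cases s (x i) (x j) <;> rfl

theorem Leaf_eq (s : V → V → Bool) (mk : V → V → V → ℕ)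
    (s12 : ∀ a b c, mk a b c = mk b a c) (s23 : ∀ a b c, mk a b c = mk a c b)
    (q : ℕ → ℕ → ℕ → ℕ) (K : ℕ) (x : Fin 5 → V) :
    Leaf s mk q K x = leafG q K (N s x 0 1) (N s x 0 2) (N s x 0 3) (N s x 0 4) (N s x 1 0) (N s x 1 2) (N s x 1 3) (N s x 1 4) (N s x 2 0) (N s x 2 1) (N s x 2 3) (N s x 2 4) (N s x 3 0) (N s x 3 1) (N s x 3 2) (N s x 3 4) (N s x 4 0) (N s x 4 1) (N s x 4 2) (N s x 4 3)
      (mk (x 0) (x 1) (x 2)) (mk (x 0) (x 1) (x 3)) (mk (x 0) (x 1) (x 4)) (mk (x 0) (x 2) (x 3)) (mk (x 0) (x 2) (x 4)) (mk (x 0) (x 3) (x 4)) (mk (x 1) (x 2) (x 3)) (mk (x 1) (x 2) (x 4)) (mk (x 1) (x 3) (x 4)) (mk (x 2) (x 3) (x 4)) := by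
  have r021 : mk (x 0) (x 2) (x 1) = mk (x 0) (x 1) (x 2) := by
    rw [s23]
  have r031 : mk (x 0) (x 3) (x 1) = mk (x 0) (x 1) (x 3) := by
    rw [s23]
  have r032 : mk (x 0) (x 3) (x 2) = mk (x 0) (x 2) (x 3) := by
    rw [s23]
  have r041 : mk (x 0) (x 4) (x 1) = mk (x 0) (x 1) (x 4) := by
    rw [s23]
  have r042 : mk (x 0) (x 4) (x 2) = mk (x 0) (x 2) (x 4) := by
    rw [s23]
  have r043 : mk (x 0) (x 4) (x 3) = mk (x 0) (x 3) (x 4) := by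
    rw [s23]
  have r120 : mk (x 1) (x 2) (x 0) = mk (x 0) (x 1) (x 2) := by
    rw [s23, s12]
  have r130 : mk (x 1) (x 3) (x 0) = mk (x 0) (x 1) (x 3) := by
    rw [s23, s12]
  have r132 : mk (x 1) (x 3) (x 2) = mk (x 1) (x 2) (x 3) := by
    rw [s23]
  have r140 : mk (x 1) (x 4) (x 0) = mk (x 0) (x 1) (x 4) := by
    rw [s23, s12]
  have r142 : mk (x 1) (x 4) (x 2) = mk (x 1) (x 2) (x 4) := by
    rw [s23]
  have r143 : mk (x 1) (x 4) (x 3) = mk (x 1) (x 3) (x 4) := by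
    rw [s23]
  have r230 : mk (x 2) (x 3) (x 0) = mk (x 0) (x 2) (x 3) := by
    rw [s23, s12]
  have r231 : mk (x 2) (x 3) (x 1) = mk (x 1) (x 2) (x 3) := by
    rw [s23, s12]
  have r240 : mk (x 2) (x 4) (x 0) = mk (x 0) (x 2) (x 4) := by
    rw [s23, s12]
  have r241 : mk (x 2) (x 4) (x 1) = mk (x 1) (x 2) (x 4) := by
    rw [s23, s12]
  have r243 : mk (x 2) (x 4) (x 3) = mk (x 2) (x 3) (x 4) := by
    rw [s23]
  have r340 : mk (x 3) (x 4) (x 0) = mk (x 0) (x 3) (x 4) := by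
    rw [s23, s12]
  have r341 : mk (x 3) (x 4) (x 1) = mk (x 1) (x 3) (x 4) := by
    rw [s23, s12]
  have r342 : mk (x 3) (x 4) (x 2) = mk (x 2) (x 3) (x 4) := by
    rw [s23, s12]
  unfold Leaf F3 CT CI leafG
  simp only [dd_fin]
  rw [r021, r031, r032, r041, r042, r043, r120, r130, r132, r140, r142, r143, r230, r231, r240, r241, r243, r340, r341, r342]
  rfl

theorem mkE_12 {s : V → V → Bool} {E : V → V → V → Prop} (hs : Sys s E) (a b c : V) :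
    mkE E a b c = mkE E b a c := by
  have h : E a b c ↔ E b a c := ⟨hs.s12 a b c, hs.s12 b a c⟩
  unfold mkE
  by_cases h1 : E a b c
  · rw [if_pos h1, if_pos (h.mp h1)]
  · rw [if_neg h1, if_neg (fun h2 => h1 (h.mpr h2))]

theorem mkE_23 {s : V → V → Bool} {E : V → V → V → Prop} (hs : Sys s E) (a b c : V) :
    mkE E a b c = mkE E a c b := by
  have h : E a b c ↔ E a c b := ⟨hs.s23 a b c, hs.s23 a c b⟩
  unfold mkE
  by_cases h1 : E a b c
  · rw [if_pos h1, if_pos (h.mp h1)]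
  · rw [if_neg h1, if_neg (fun h2 => h1 (h.mpr h2))]

theorem mv_ok {s : V → V → Bool} {E : V → V → V → Prop} (hs : Sys s E) (x : Fin 5 → V)
    (a b c : Fin 5) : Mv (Nat.mul (X (N s x a b) (N s x a c)) (Nat.mul (X (N s x b a) (N s x b c))
      (X (N s x c a) (N s x c b)))) (mkE E (x a) (x b) (x c)) := by
  rw [← dd_fin, ← dd_fin, ← dd_fin]
  by_cases h : E (x a) (x b) (x c)
  · right
    have h1 := hs.col _ _ _ h
    have h2 := hs.col _ _ _ (hs.s12 _ _ _ h)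
    have h3 := hs.col _ _ _ (hs.s12 _ _ _ (hs.s23 _ _ _ h))
    have d : ∀ v p r : V, s v p ≠ s v r → DD s v p r = 1 := by
      intro v p r hh
      unfold DD
      revert hh
      cases s v p <;> cases s v r <;> simp
    refine ⟨by simp [mkE, h], ?_⟩
    rw [d _ _ _ h1, d _ _ _ h2, d _ _ _ h3]
  · left
    simp [mkE, h]

theorem bz {s : V → V → Bool} {E : V → V → V → Prop} (hs : Sys s E) (a b c d e : V) :
    Nat.mul (mkE E a b c) (Nat.mul (mkE E a b d) (Nat.mul (mkE E a b e) (mkE E c d e))) = 0 := by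
  show mkE E a b c * (mkE E a b d * (mkE E a b e * mkE E c d e)) = 0
  by_cases h1 : E a b c
  · by_cases h2 : E a b d
    · by_cases h3 : E a b e
      · by_cases h4 : E c d e
        · exact absurd (hs.s12 _ _ _ (hs.s23 _ _ _ h3)) (hs.free c d e a b h4
            (hs.s12 _ _ _ (hs.s23 _ _ _ h1)) (hs.s12 _ _ _ (hs.s23 _ _ _ h2)))
        · simp [mkE, h4]
      · simp [mkE, h3]
    · simp [mkE, h2]
  · simp [mkE, h1]

theorem bad_zero {s : V → V → Bool} {E : V → V → V → Prop} (hs : Sys s E) (x : Fin 5 → V) :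
    badG (mkE E (x 0) (x 1) (x 2)) (mkE E (x 0) (x 1) (x 3)) (mkE E (x 0) (x 1) (x 4)) (mkE E (x 0) (x 2) (x 3)) (mkE E (x 0) (x 2) (x 4)) (mkE E (x 0) (x 3) (x 4)) (mkE E (x 1) (x 2) (x 3)) (mkE E (x 1) (x 2) (x 4)) (mkE E (x 1) (x 3) (x 4)) (mkE E (x 2) (x 3) (x 4)) = 0 := by
  have s12 := mkE_12 hs
  have s23 := mkE_23 hs
  have bz := fun a b c d e => bz hs a b c d e
  have r021 : mkE E (x 0) (x 2) (x 1) = mkE E (x 0) (x 1) (x 2) := by
    rw [s23]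
  have r031 : mkE E (x 0) (x 3) (x 1) = mkE E (x 0) (x 1) (x 3) := by
    rw [s23]
  have r032 : mkE E (x 0) (x 3) (x 2) = mkE E (x 0) (x 2) (x 3) := by
    rw [s23]
  have r041 : mkE E (x 0) (x 4) (x 1) = mkE E (x 0) (x 1) (x 4) := by
    rw [s23]
  have r042 : mkE E (x 0) (x 4) (x 2) = mkE E (x 0) (x 2) (x 4) := by
    rw [s23]
  have r043 : mkE E (x 0) (x 4) (x 3) = mkE E (x 0) (x 3) (x 4) := by
    rw [s23]
  have r120 : mkE E (x 1) (x 2) (x 0) = mkE E (x 0) (x 1) (x 2) := by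
    rw [s23, s12]
  have r130 : mkE E (x 1) (x 3) (x 0) = mkE E (x 0) (x 1) (x 3) := by
    rw [s23, s12]
  have r132 : mkE E (x 1) (x 3) (x 2) = mkE E (x 1) (x 2) (x 3) := by
    rw [s23]
  have r140 : mkE E (x 1) (x 4) (x 0) = mkE E (x 0) (x 1) (x 4) := by
    rw [s23, s12]
  have r142 : mkE E (x 1) (x 4) (x 2) = mkE E (x 1) (x 2) (x 4) := by
    rw [s23]
  have r143 : mkE E (x 1) (x 4) (x 3) = mkE E (x 1) (x 3) (x 4) := by
    rw [s23]
  have r230 : mkE E (x 2) (x 3) (x 0) = mkE E (x 0) (x 2) (x 3) := by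
    rw [s23, s12]
  have r231 : mkE E (x 2) (x 3) (x 1) = mkE E (x 1) (x 2) (x 3) := by
    rw [s23, s12]
  have r240 : mkE E (x 2) (x 4) (x 0) = mkE E (x 0) (x 2) (x 4) := by
    rw [s23, s12]
  have r241 : mkE E (x 2) (x 4) (x 1) = mkE E (x 1) (x 2) (x 4) := by
    rw [s23, s12]
  have r243 : mkE E (x 2) (x 4) (x 3) = mkE E (x 2) (x 3) (x 4) := by
    rw [s23]
  have r340 : mkE E (x 3) (x 4) (x 0) = mkE E (x 0) (x 3) (x 4) := by
    rw [s23, s12]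
  have r341 : mkE E (x 3) (x 4) (x 1) = mkE E (x 1) (x 3) (x 4) := by
    rw [s23, s12]
  have r342 : mkE E (x 3) (x 4) (x 2) = mkE E (x 2) (x 3) (x 4) := by
    rw [s23, s12]
  have y0 := bz (x 0) (x 1) (x 2) (x 3) (x 4)
  have y1 := bz (x 0) (x 2) (x 1) (x 3) (x 4)
  rw [r021] at y1
  have y2 := bz (x 0) (x 3) (x 1) (x 2) (x 4)
  rw [r031, r032] at y2
  have y3 := bz (x 0) (x 4) (x 1) (x 2) (x 3)
  rw [r041, r042, r043] at y3
  have y4 := bz (x 1) (x 2) (x 0) (x 3) (x 4)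
  rw [r120] at y4
  have y5 := bz (x 1) (x 3) (x 0) (x 2) (x 4)
  rw [r130, r132] at y5
  have y6 := bz (x 1) (x 4) (x 0) (x 2) (x 3)
  rw [r140, r142, r143] at y6
  have y7 := bz (x 2) (x 3) (x 0) (x 1) (x 4)
  rw [r230, r231] at y7
  have y8 := bz (x 2) (x 4) (x 0) (x 1) (x 3)
  rw [r240, r241, r243] at y8
  have y9 := bz (x 3) (x 4) (x 0) (x 1) (x 2)
  rw [r340, r341, r342] at y9
  unfold badG
  rw [y0, y1, y2, y3, y4, y5, y6, y7, y8, y9]

end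

theorem t_L : LeafAll := by
  intro q K C hchk V s E hs x
  rw [Leaf_eq s (mkE E) (mkE_12 hs) (mkE_23 hs)]
  exact leaf_le q K C hchk (N s x 0 1) (N s x 0 2) (N s x 0 3) (N s x 0 4) (N s x 1 0) (N s x 1 2) (N s x 1 3) (N s x 1 4) (N s x 2 0) (N s x 2 1) (N s x 2 3) (N s x 2 4) (N s x 3 0) (N s x 3 1) (N s x 3 2) (N s x 3 4) (N s x 4 0) (N s x 4 1) (N s x 4 2) (N s x 4 3)
    (mkE E (x 0) (x 1) (x 2)) (mkE E (x 0) (x 1) (x 3)) (mkE E (x 0) (x 1) (x 4)) (mkE E (x 0) (x 2) (x 3)) (mkE E (x 0) (x 2) (x 4)) (mkE E (x 0) (x 3) (x 4)) (mkE E (x 1) (x 2) (x 3)) (mkE E (x 1) (x 2) (x 4)) (mkE E (x 1) (x 3) (x 4)) (mkE E (x 2) (x 3) (x 4))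
    (N_ref s x 0 1 rfl) (N_ref s x 1 0 rfl) (N_ref s x 2 0 rfl) (N_ref s x 3 0 rfl) (N_ref s x 4 0 rfl)
    (N_lt _ _ _ _) (N_lt _ _ _ _) (N_lt _ _ _ _) (N_lt _ _ _ _) (N_lt _ _ _ _) (N_lt _ _ _ _) (N_lt _ _ _ _) (N_lt _ _ _ _) (N_lt _ _ _ _) (N_lt _ _ _ _) (N_lt _ _ _ _) (N_lt _ _ _ _) (N_lt _ _ _ _) (N_lt _ _ _ _) (N_lt _ _ _ _)
    (mv_ok hs x 0 1 2) (mv_ok hs x 0 1 3) (mv_ok hs x 0 1 4) (mv_ok hs x 0 2 3) (mv_ok hs x 0 2 4) (mv_ok hs x 0 3 4) (mv_ok hs x 1 2 3) (mv_ok hs x 1 2 4) (mv_ok hs x 1 3 4) (mv_ok hs x 2 3 4)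
    (bad_zero hs x)

end Pool.Agent.Helper35.EL
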