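import Mathlib

/-! # F_{3,2}-free 3-graphs without long odd cycles in links: statements of the parts

The 3-graphs of the problem are, up to `o(n^3)` edges, those with bipartite links.  A vertex
system with bipartite links is a function `s` (for every vertex `v` the two sides `s v x` of the
other vertices) and a symmetric ternary relation `E` such that every edge is crossing at each of
its vertices. -/

set_option autoImplicit false
open Finset

namespace Pool.Agent.Helper35.EL

/-- a 3-graph `E` with two-coloured links (`s v` colours the link of `v`) and without `F_{3,2}` -/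
structure Sys {V : Type} (s : V → V → Bool) (E : V → V → V → Prop) : Prop where
  s12 : ∀ a b c, E a b c → E b a c
  s23 : ∀ a b c, E a b c → E a c b
  col : ∀ a b c, E a b c → s a b ≠ s a c
  free : ∀ a b c d e, E a b c → E a d e → E b d e → ¬ E c d e

/-- the conditions of the frozen statement on a family of triples -/
def Good (n : ℕ) (H : Finset (Finset (Fin n))) : Prop :=
  (∀ e ∈ H, e.card = 3) ∧
  (¬ ∃ f : Fin 5 → Fin n, Function.Injective f ∧
      ({f 0, f 1, f 2} : Finset (Fin n)) ∈ H ∧
      ({f 0, f 3, f 4} : Finset (Fin n)) ∈ H ∧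
      ({f 1, f 3, f 4} : Finset (Fin n)) ∈ H ∧
      ({f 2, f 3, f 4} : Finset (Fin n)) ∈ H) ∧
  (∀ v : Fin n, ∀ k : ℕ, 5 ≤ k → Odd k →
      ¬ ∃ c : Fin k → Fin n, Function.Injective c ∧ (∀ i, c i ≠ v) ∧
        ∀ i : Fin k, ({v, c i, c (finRotate k i)} : Finset (Fin n)) ∈ H)

/-- PART F (flag algebra, helper35): the number of ordered edges is at most `n^3/4` -/
def Flag : Prop := ∀ (V : Type) [Fintype V] (s : V → V → Bool) (E : V → V → V → Prop)
  [∀ a b c, Decidable (E a b c)], Sys s E →
    4 * (Fintype.card {x : V × V × V // E x.1 x.2.1 x.2.2} : ℝ) ≤ (Fintype.card V : ℝ) ^ 3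

/-- PART B (reduction by the triangle removal lemma in every link) -/
def Upper : Prop := ∀ ε : ℝ, 0 < ε → ∃ N : ℕ, ∀ n : ℕ, N ≤ n →
  ∀ H : Finset (Finset (Fin n)), Good n H → (H.card : ℝ) ≤ (1 / 4 + ε) * ((n.choose 3 : ℕ) : ℝ)

def PartB : Prop := Flag → Upper

/-- PART A (the cyclic triangles of the circular tournament) -/
def PartA : Prop := ∀ ε : ℝ, 0 < ε → ∃ N : ℕ, ∀ n : ℕ, N ≤ n →
  ∃ H : Finset (Finset (Fin n)), Good n H ∧ (1 / 4 - ε) * ((n.choose 3 : ℕ) : ℝ) ≤ (H.card : ℝ)

end Pool.Agent.Helper35.EL
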