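import Pool.Agent.Helper35.EL.Cod

/-! # Averaging over all five-tuples (part V) -/

set_option autoImplicit false
open Finset

namespace Pool.Agent.Helper35.EL

namespace Vg

/-- coordinates can be permuted in a sum over all five-tuples -/
theorem psum1 {V : Type} [Fintype V] (F : V → V → V → V → V → ℝ) (g : Fin 5 → Fin 5)
    (hg : Function.Bijective g) :
    ∑ x : Fin 5 → V, F (x (g 0)) (x (g 1)) (x (g 2)) (x (g 3)) (x (g 4))
      = ∑ x : Fin 5 → V, F (x 0) (x 1) (x 2) (x 3) (x 4) := by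
  classical
  have h := Equiv.sum_comp (Equiv.arrowCongr (Equiv.ofBijective g hg).symm (Equiv.refl V))
    (fun x => F (x 0) (x 1) (x 2) (x 3) (x 4))
  rw [← h]
  rfl

def e5 (V : Type) : (Fin 5 → V) ≃ V × V × V × V × V where
  toFun x := (x 0, x 1, x 2, x 3, x 4)
  invFun p := ![p.1, p.2.1, p.2.2.1, p.2.2.2.1, p.2.2.2.2]
  left_inv x := by funext i; fin_cases i <;> rfl
  right_inv p := rfl

theorem conv1 {V : Type} [Fintype V] (F : V → V → V → V → V → ℝ) :
    ∑ x : Fin 5 → V, F (x 0) (x 1) (x 2) (x 3) (x 4)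
      = ∑ a, ∑ b, ∑ c, ∑ d, ∑ e, F a b c d e := by
  classical
  rw [← Equiv.sum_comp (e5 V).symm]
  simp only [Fintype.sum_prod_type]
  rfl

theorem psd1 {V : Type} [Fintype V] (s : Finset ℕ) (w : ℕ → ℝ) (hw : ∀ k, 0 ≤ w k) (u : ℕ → V → ℝ) :
    0 ≤ ∑ d, ∑ e, ∑ k ∈ s, w k * (u k d * u k e) := by
  have h : ∑ d, ∑ e, ∑ k ∈ s, w k * (u k d * u k e)
      = ∑ k ∈ s, w k * ((∑ d, u k d) * ∑ e, u k e) := by
    simp only [Finset.sum_mul_sum]
    simp only [Finset.mul_sum]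
    calc ∑ d, ∑ e, ∑ k ∈ s, w k * (u k d * u k e)
        = ∑ d, ∑ k ∈ s, ∑ e, w k * (u k d * u k e) :=
          sum_congr rfl fun d _ => sum_comm
      _ = _ := sum_comm
  rw [h]
  exact sum_nonneg fun k _ => mul_nonneg (hw k) (mul_self_nonneg _)

theorem DD_lt {V : Type} (s : V → V → Bool) (v a b : V) : DD s v a b < 2 := by
  unfold DD
  have := Bool.toNat_lt (xor (s v a) (s v b))
  exact this

theorem mkE_le {V : Type} (E : V → V → V → Prop) (a b c : V) : mkE E a b c < 2 := by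
  unfold mkE
  split_ifs <;> norm_num

theorem cT_eq (x y z e : ℕ) : cT x y z e = x + (2 * y + (4 * z + e)) := rfl

theorem cI_eq (u v w p q r s t : ℕ) : cI u v w p q r s t =
    u + (2 * v + (4 * w + (8 * p + (16 * q + (32 * r + (64 * s + 128 * t)))))) := rfl

theorem CT_lt {V : Type} (s : V → V → Bool) (E : V → V → V → Prop) (a b c : V) :
    CT s (mkE E) a b c < 9 := by
  unfold CT
  rw [cT_eq]
  have h1 := DD_lt s a b c
  have h2 := DD_lt s b a c
  have h3 := DD_lt s c a b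
  have h4 := mkE_le E a b c
  omega

theorem CI_lt {V : Type} (s : V → V → Bool) (E : V → V → V → Prop) (a b c d : V) :
    CI s (mkE E) a b c d < 256 := by
  unfold CI
  rw [cI_eq]
  have h1 := DD_lt s a b d
  have h2 := DD_lt s b a d
  have h3 := DD_lt s c a d
  have h4 := DD_lt s d a b
  have h5 := DD_lt s d a c
  have h6 := mkE_le E a b d
  have h7 := mkE_le E a c d
  have h8 := mkE_le E b c d
  omega

end Vg

open Vg in
theorem t_V : Avg := by
  intro q K C O J wt u hwt hq V _ s E _ hleaf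
  set n : ℝ := (Fintype.card V : ℝ) with hn
  have hcard : ∀ z : ℝ, ∑ _v : V, z = n * z := by
    intro z
    rw [sum_const, nsmul_eq_mul, hn, Finset.card_univ]
  -- the total of the leaves
  have key : ∑ x : Fin 5 → V, (Leaf s (mkE E) q K x : ℝ) ≤ C * n ^ 5 := by
    have e1 : ∑ _x : Fin 5 → V, (C : ℝ) = C * n ^ 5 := by
      rw [conv1 (fun _ _ _ _ _ => (C : ℝ))]
      simp only [hcard]
      ring
    rw [← e1]
    exact sum_le_sum fun x _ => by exact_mod_cast hleaf x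
  have f3 : ∀ i0 i1 i2 i3 i4 : Fin 5, Function.Bijective ![i0, i1, i2, i3, i4] →
      ∑ x : Fin 5 → V, (F3 s (mkE E) q (x i0) (x i1) (x i2) (x i3) (x i4) : ℝ)
      = ∑ x : Fin 5 → V, (F3 s (mkE E) q (x 0) (x 1) (x 2) (x 3) (x 4) : ℝ) :=
    fun i0 i1 i2 i3 i4 hg =>
      psum1 (fun a b c d e => (F3 s (mkE E) q a b c d e : ℝ)) ![i0, i1, i2, i3, i4] hg
  have f0 : ∀ i0 i1 i2 i3 i4 : Fin 5, Function.Bijective ![i0, i1, i2, i3, i4] →
      ∑ x : Fin 5 → V, (mkE E (x i0) (x i1) (x i2) : ℝ)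
      = ∑ x : Fin 5 → V, (mkE E (x 0) (x 1) (x 2) : ℝ) :=
    fun i0 i1 i2 i3 i4 hg =>
      psum1 (fun a b c _ _ => (mkE E a b c : ℝ)) ![i0, i1, i2, i3, i4] hg
  have e : ∑ x : Fin 5 → V, (Leaf s (mkE E) q K x : ℝ)
      = 10 * (K : ℝ) * (∑ x : Fin 5 → V, (mkE E (x 0) (x 1) (x 2) : ℝ))
      + 10 * (∑ x : Fin 5 → V, (F3 s (mkE E) q (x 0) (x 1) (x 2) (x 3) (x 4) : ℝ)) := by
    simp only [Leaf, Nat.cast_add, Nat.cast_mul, mul_add, sum_add_distrib, ← mul_sum]
    rw [f3 0 1 3 2 4 (by decide), f3 0 1 4 2 3 (by decide), f3 0 2 3 1 4 (by decide),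
      f3 0 2 4 1 3 (by decide), f3 0 3 4 1 2 (by decide), f3 1 2 3 0 4 (by decide),
      f3 1 2 4 0 3 (by decide), f3 1 3 4 0 2 (by decide), f3 2 3 4 0 1 (by decide),
      f0 0 1 3 2 4 (by decide), f0 0 1 4 2 3 (by decide), f0 0 2 3 1 4 (by decide),
      f0 0 2 4 1 3 (by decide), f0 0 3 4 1 2 (by decide), f0 1 2 3 0 4 (by decide),
      f0 1 2 4 0 3 (by decide), f0 1 3 4 0 2 (by decide), f0 2 3 4 0 1 (by decide)]
    ring
  -- the edges
  have hT : ∑ x : Fin 5 → V, (mkE E (x 0) (x 1) (x 2) : ℝ) =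
      (∑ a, ∑ b, ∑ c, (mkE E a b c : ℝ)) * n ^ 2 := by
    rw [conv1 (fun a b c _ _ => (mkE E a b c : ℝ))]
    simp only [hcard, ← mul_sum]
    ring
  -- the squares
  have hF : (O : ℝ) * n ^ 5 ≤
      ∑ x : Fin 5 → V, (F3 s (mkE E) q (x 0) (x 1) (x 2) (x 3) (x 4) : ℝ) := by
    rw [conv1 (fun a b c d e => (F3 s (mkE E) q a b c d e : ℝ))]
    have e1 : (O : ℝ) * n ^ 5 = ∑ _a : V, ∑ _b : V, ∑ _c : V, (O : ℝ) * n ^ 2 := by
      simp only [hcard]
      ring
    rw [e1]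
    refine sum_le_sum fun a _ => sum_le_sum fun b _ => sum_le_sum fun c _ => ?_
    have e2 : ∀ d e : V, (F3 s (mkE E) q a b c d e : ℝ) =
        (∑ k ∈ range J, wt (CT s (mkE E) a b c) k * (u (CT s (mkE E) a b c) (CI s (mkE E) a b c d) k *
          u (CT s (mkE E) a b c) (CI s (mkE E) a b c e) k)) + O := fun d e =>
      hq _ _ _ (CT_lt s E a b c) (CI_lt s E a b c d) (CI_lt s E a b c e)
    simp only [e2, sum_add_distrib, hcard]
    have p := psd1 (V := V) (range J) (wt (CT s (mkE E) a b c)) (hwt _)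
      (fun k d => u (CT s (mkE E) a b c) (CI s (mkE E) a b c d) k)
    have e3 : n * (n * (O : ℝ)) = O * n ^ 2 := by ring
    rw [e3]
    linarith
  rw [e, hT] at key
  linarith

end Pool.Agent.Helper35.EL
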